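import Mathlib

/-!
# Covering dimension at least two gives a non-extendable map to the punctured plane
-/

set_option autoImplicit false
open Set

namespace Pool.Agent.H84.ArcSep

/-- Every nonvanishing map from a closed subset to `ℂ` extends to a nonvanishing map. -/
def AllExt (X : Type*) [TopologicalSpace X] : Prop :=
  ∀ (C : Set X) (f : X → ℂ), IsClosed C → ContinuousOn f C → (∀ x ∈ C, f x ≠ 0) →
    ∃ F : X → ℂ, Continuous F ∧ (∀ x, F x ≠ 0) ∧ ∀ x ∈ C, F x = f x

/-- Covers with three members. -/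
theorem shrink_three {X : Type*} [MetricSpace X] [CompactSpace X] (H : AllExt X)
    (U : Fin 3 → Set X) (hU : ∀ i, IsOpen (U i)) (hcov : ∀ x, ∃ i, x ∈ U i) :
    ∃ V : Fin 3 → Set X, (∀ i, IsOpen (V i)) ∧ (∀ i, V i ⊆ U i) ∧ (∀ x, ∃ i, x ∈ V i) ∧
      ∀ x, ¬ (x ∈ V 0 ∧ x ∈ V 1 ∧ x ∈ V 2) := by
  obtain ⟨p, hp⟩ := PartitionOfUnity.exists_isSubordinate (X := X) (s := univ) isClosed_univ U hU
    (fun x _ => mem_iUnion.mpr (hcov x))
  have hsum : ∀ x, p 0 x + p 1 x + p 2 x = 1 := by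
    intro x
    have := p.sum_eq_one (mem_univ x)
    rw [finsum_eq_sum_of_fintype, Fin.sum_univ_three] at this
    exact this
  have hnn : ∀ i x, 0 ≤ p i x := fun i x => p.nonneg i x
  have hsub : ∀ i x, p i x ≠ 0 → x ∈ U i := fun i x h => hp i (subset_tsupport _ h)
  -- the closed set and the map
  let C : Set X := {x | p 0 x = 0 ∨ p 1 x = 0 ∨ p 2 x = 0}
  have hC : IsClosed C := by
    have h0 : IsClosed {x | p 0 x = 0} := isClosed_eq (p 0).continuous continuous_const
    have h1 : IsClosed {x | p 1 x = 0} := isClosed_eq (p 1).continuous continuous_const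
    have h2 : IsClosed {x | p 2 x = 0} := isClosed_eq (p 2).continuous continuous_const
    exact h0.union (h1.union h2)
  let g : X → ℂ := fun x => ⟨p 0 x - 1 / 3, p 1 x - 1 / 3⟩
  have hg : Continuous g := by
    have : g = fun x => ((p 0 x - 1 / 3 : ℝ) : ℂ) + ((p 1 x - 1 / 3 : ℝ) : ℂ) * Complex.I := by
      funext x
      apply Complex.ext <;> simp [g]
    rw [this]
    have h0 := (p 0).continuous
    have h1 := (p 1).continuous
    fun_prop
  have hg0 : ∀ x ∈ C, g x ≠ 0 := by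
    intro x hx h
    have h0 : p 0 x - 1 / 3 = 0 := congrArg Complex.re h
    have h1 : p 1 x - 1 / 3 = 0 := congrArg Complex.im h
    have h2 := hsum x
    rcases hx with hx | hx | hx <;> linarith
  obtain ⟨G, hG, hGn, hGC⟩ := H C g hC hg.continuousOn hg0
  let a : Fin 3 → X → ℝ := fun i x =>
    if i = 0 then - (G x).re else if i = 1 then - (G x).im else (G x).re + (G x).im
  have ha0 : ∀ x, a 0 x = - (G x).re := fun x => by simp [a]
  have ha1 : ∀ x, a 1 x = - (G x).im := fun x => by simp [a]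
  have ha2 : ∀ x, a 2 x = (G x).re + (G x).im := fun x => by simp [a]
  have hac : ∀ i, Continuous (a i) := by
    have hre : Continuous fun x => (G x).re := Complex.continuous_re.comp hG
    have him : Continuous fun x => (G x).im := Complex.continuous_im.comp hG
    intro i
    fin_cases i
    · exact hre.neg.congr fun x => (ha0 x).symm
    · exact him.neg.congr fun x => (ha1 x).symm
    · exact (hre.add him).congr fun x => (ha2 x).symm
  have hasum : ∀ x, a 0 x + a 1 x + a 2 x = 0 := by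
    intro x; rw [ha0, ha1, ha2]; ring
  let m : X → ℝ := fun x => max (a 0 x) (max (a 1 x) (a 2 x))
  have hm : Continuous m := (hac 0).max ((hac 1).max (hac 2))
  have hle : ∀ i x, a i x ≤ m x := by
    intro i x
    fin_cases i
    · exact le_max_left _ _
    · exact le_max_of_le_right (le_max_left _ _)
    · exact le_max_of_le_right (le_max_right _ _)
  have hmpos : ∀ x, 0 < m x := by
    intro x
    by_contra hc
    push Not at hc
    have h0 := (hle 0 x).trans hc
    have h1 := (hle 1 x).trans hc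
    have h2 := (hle 2 x).trans hc
    have h3 := hasum x
    apply hGn x
    apply Complex.ext
    · rw [ha0] at *
      simp only [Complex.zero_re]; linarith
    · rw [ha1] at *
      simp only [Complex.zero_im]; linarith
  have hatt : ∀ x, ∃ i, a i x = m x := by
    intro x
    rcases max_choice (a 0 x) (max (a 1 x) (a 2 x)) with h | h
    · exact ⟨0, h.symm⟩
    · rcases max_choice (a 1 x) (a 2 x) with h' | h'
      · exact ⟨1, (h.trans h').symm⟩
      · exact ⟨2, (h.trans h').symm⟩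
  refine ⟨fun i => {x | a i x < m x}, fun i => isOpen_lt (hac i) hm, ?_, ?_, ?_⟩
  · intro i x hx
    simp only [mem_ofPred_eq] at hx
    apply hsub
    intro h0
    have hxC : x ∈ C := by
      fin_cases i
      · exact Or.inl h0
      · exact Or.inr (Or.inl h0)
      · exact Or.inr (Or.inr h0)
    -- on `C`, `a j = 1/3 - p j`
    have haj : ∀ j, a j x = 1 / 3 - p j x := by
      have hGx := hGC x hxC
      have hre : (G x).re = p 0 x - 1 / 3 := by rw [hGx]
      have him : (G x).im = p 1 x - 1 / 3 := by rw [hGx]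
      have := hsum x
      intro j
      fin_cases j
      · change a 0 x = 1 / 3 - p 0 x
        rw [ha0, hre]; ring
      · change a 1 x = 1 / 3 - p 1 x
        rw [ha1, him]; ring
      · change a 2 x = 1 / 3 - p 2 x
        rw [ha2, hre, him]; linarith
    obtain ⟨j, hj⟩ := hatt x
    rw [haj] at hj
    rw [haj, h0] at hx
    have := hnn j x
    linarith
  · intro x
    by_contra hc
    push Not at hc
    have h0 := hc 0
    have h1 := hc 1
    have h2 := hc 2
    simp only [mem_ofPred_eq, not_lt] at h0 h1 h2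
    have := hasum x
    have := hmpos x
    linarith
  · rintro x ⟨h0, h1, h2⟩
    obtain ⟨j, hj⟩ := hatt x
    simp only [mem_ofPred_eq] at h0 h1 h2
    fin_cases j
    · exact absurd hj h0.ne
    · exact absurd hj h1.ne
    · exact absurd hj h2.ne

/-- Finite covers. -/
theorem shrink_finite {X : Type*} [MetricSpace X] [CompactSpace X] (H : AllExt X)
    {ι : Type*} [DecidableEq ι] (U : ι → Set X) (hU : ∀ i, IsOpen (U i))
    (hcov : ∀ x, ∃ i, x ∈ U i) (T : Finset (ι × ι × ι))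
    (hT : ∀ t ∈ T, t.1 ≠ t.2.1 ∧ t.1 ≠ t.2.2 ∧ t.2.1 ≠ t.2.2) :
    ∃ V : ι → Set X, (∀ i, IsOpen (V i)) ∧ (∀ i, V i ⊆ U i) ∧ (∀ x, ∃ i, x ∈ V i) ∧
      ∀ t ∈ T, ∀ x, ¬ (x ∈ V t.1 ∧ x ∈ V t.2.1 ∧ x ∈ V t.2.2) := by
  induction T using Finset.induction_on with
  | empty => exact ⟨U, hU, fun i => Subset.rfl, hcov, by simp⟩
  | insert t T ht ih =>
    obtain ⟨V, hVo, hVU, hVc, hVT⟩ := ih fun s hs => hT s (Finset.mem_insert_of_mem hs)
    obtain ⟨i, j, l⟩ := t
    obtain ⟨hij, hil, hjl⟩ := hT _ (Finset.mem_insert_self _ _)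
    simp only at hij hil hjl
    let W : Fin 3 → Set X := fun k =>
      if k = 0 then V i else if k = 1 then V j else ⋃ m ∈ {m | m ≠ i ∧ m ≠ j}, V m
    have hW0 : W 0 = V i := by simp [W]
    have hW1 : W 1 = V j := by simp [W]
    have hW2 : W 2 = ⋃ m ∈ {m | m ≠ i ∧ m ≠ j}, V m := by simp [W]
    have hWo : ∀ k, IsOpen (W k) := by
      intro k
      fin_cases k
      · change IsOpen (W 0); rw [hW0]; exact hVo i
      · change IsOpen (W 1); rw [hW1]; exact hVo j
      · change IsOpen (W 2); rw [hW2]; exact isOpen_biUnion fun m _ => hVo m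
    have hWc : ∀ x, ∃ k, x ∈ W k := by
      intro x
      obtain ⟨m, hm⟩ := hVc x
      by_cases hmi : m = i
      · exact ⟨0, by rw [hW0, ← hmi]; exact hm⟩
      · by_cases hmj : m = j
        · exact ⟨1, by rw [hW1, ← hmj]; exact hm⟩
        · refine ⟨2, ?_⟩
          rw [hW2]
          exact mem_biUnion (show m ∈ {m | m ≠ i ∧ m ≠ j} from ⟨hmi, hmj⟩) hm
    obtain ⟨W', hWo', hWW, hWc', hWe⟩ := shrink_three H W hWo hWc
    let V' : ι → Set X := fun m =>
      if m = i then W' 0 else if m = j then W' 1 else V m ∩ W' 2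
    have hVi : V' i = W' 0 := by simp [V']
    have hVj : V' j = W' 1 := by simp [V', hij.symm]
    have hVm : ∀ m, m ≠ i → m ≠ j → V' m = V m ∩ W' 2 := by
      intro m h1 h2; simp [V', h1, h2]
    have hVV : ∀ m, V' m ⊆ V m := by
      intro m
      by_cases hmi : m = i
      · rw [hmi, hVi, ← hW0]; exact hWW 0
      · by_cases hmj : m = j
        · rw [hmj, hVj, ← hW1]; exact hWW 1
        · rw [hVm m hmi hmj]; exact inter_subset_left
    refine ⟨V', ?_, fun m => (hVV m).trans (hVU m), ?_, ?_⟩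
    · intro m
      by_cases hmi : m = i
      · rw [hmi, hVi]; exact hWo' 0
      · by_cases hmj : m = j
        · rw [hmj, hVj]; exact hWo' 1
        · rw [hVm m hmi hmj]; exact (hVo m).inter (hWo' 2)
    · intro x
      obtain ⟨k, hk⟩ := hWc' x
      fin_cases k
      · exact ⟨i, by rw [hVi]; exact hk⟩
      · exact ⟨j, by rw [hVj]; exact hk⟩
      · have h2 : x ∈ W 2 := hWW 2 hk
        rw [hW2, mem_iUnion₂] at h2
        obtain ⟨m, ⟨hmi, hmj⟩, hm⟩ := h2
        exact ⟨m, by rw [hVm m hmi hmj]; exact ⟨hm, hk⟩⟩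
    · intro s hs x hx
      rw [Finset.mem_insert] at hs
      rcases hs with hs | hs
      · subst hs
        simp only at hx
        rw [hVi, hVj, hVm l hil.symm hjl.symm] at hx
        exact hWe x ⟨hx.1, hx.2.1, hx.2.2.2⟩
      · exact hVT s hs x ⟨hVV _ hx.1, hVV _ hx.2.1, hVV _ hx.2.2⟩

/-- covering dimension at least 2 gives a map from a closed subset to `ℂ∖{0}` that does not
extend. -/
theorem exists_nonextendable {X : Type*} [MetricSpace X] [CompactSpace X]
    (h : ∃ 𝒰 : Finset (Set X), (∀ U ∈ 𝒰, IsOpen U) ∧ ⋃₀ (𝒰 : Set (Set X)) = Set.univ ∧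
        ∀ 𝒱 : Finset (Set X), (∀ V ∈ 𝒱, IsOpen V) → ⋃₀ (𝒱 : Set (Set X)) = Set.univ →
          (∀ V ∈ 𝒱, ∃ U ∈ 𝒰, V ⊆ U) →
          ∃ x : X, ∃ V₁ ∈ 𝒱, ∃ V₂ ∈ 𝒱, ∃ V₃ ∈ 𝒱,
            V₁ ≠ V₂ ∧ V₁ ≠ V₃ ∧ V₂ ≠ V₃ ∧ x ∈ V₁ ∧ x ∈ V₂ ∧ x ∈ V₃) :
    ∃ (C : Set X) (f : X → ℂ), IsClosed C ∧ ContinuousOn f C ∧ (∀ x ∈ C, f x ≠ 0) ∧
      ¬ ∃ F : X → ℂ, Continuous F ∧ (∀ x, F x ≠ 0) ∧ ∀ x ∈ C, F x = f x := by
  classical
  by_contra hno
  push Not at hno
  have H : AllExt X := by
    intro C f hC hf hf0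
    obtain ⟨F, h1, h2, h3⟩ := hno C f hC hf hf0
    exact ⟨F, h1, h2, h3⟩
  obtain ⟨𝒰, hUo, hUc, hU⟩ := h
  let ι := {U : Set X // U ∈ 𝒰}
  let T : Finset (ι × ι × ι) :=
    Finset.univ.filter fun t => t.1 ≠ t.2.1 ∧ t.1 ≠ t.2.2 ∧ t.2.1 ≠ t.2.2
  obtain ⟨V, hVo, hVU, hVc, hVT⟩ := shrink_finite H (fun i : ι => (i : Set X))
    (fun i => hUo i i.2) (fun x => by
      have : x ∈ ⋃₀ (𝒰 : Set (Set X)) := by rw [hUc]; exact mem_univ x
      obtain ⟨U, hU, hx⟩ := this
      exact ⟨⟨U, hU⟩, hx⟩) T (fun t ht => (Finset.mem_filter.mp ht).2)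
  obtain ⟨x, V₁, h1, V₂, h2, V₃, h3, h12, h13, h23, hx1, hx2, hx3⟩ :=
    hU (Finset.univ.image V) (by
      intro W hW
      obtain ⟨i, _, rfl⟩ := Finset.mem_image.mp hW
      exact hVo i) (by
      rw [eq_univ_iff_forall]
      intro x
      obtain ⟨i, hi⟩ := hVc x
      exact ⟨V i, by simp, hi⟩) (by
      intro W hW
      obtain ⟨i, _, rfl⟩ := Finset.mem_image.mp hW
      exact ⟨i, i.2, hVU i⟩)
  obtain ⟨i, _, rfl⟩ := Finset.mem_image.mp h1
  obtain ⟨j, _, rfl⟩ := Finset.mem_image.mp h2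
  obtain ⟨l, _, rfl⟩ := Finset.mem_image.mp h3
  refine hVT (i, j, l) ?_ x ⟨hx1, hx2, hx3⟩
  rw [Finset.mem_filter]
  exact ⟨Finset.mem_univ _, fun h => h12 (congrArg V h), fun h => h13 (congrArg V h),
    fun h => h23 (congrArg V h)⟩

end Pool.Agent.H84.ArcSep
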