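import Pool.Agent.H84.ArcSep.Final
import Pool.Agent.H84.ArcSep.Dim

/-!
# Arcs do not separate homogeneous continua of dimension at least two
-/

set_option autoImplicit false

open Set Metric

namespace Pool.Agent.H84.ArcSep

variable {X : Type*} [MetricSpace X]

/-- A sub-arc of an arc, reparametrised over `[0,1]` and extended to `ℝ`. -/
noncomputable def sub (f : unitInterval → X) (α β : ℝ) (t : ℝ) : X :=
  f (Set.projIcc 0 1 zero_le_one (α + t * (β - α)))

theorem sub_continuous {f : unitInterval → X} (hf : Continuous f) (α β : ℝ) :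
    Continuous (sub f α β) := by
  unfold sub
  refine hf.comp (continuous_projIcc.comp ?_)
  fun_prop

theorem sub_mem {α β t : ℝ} (hα : α ∈ Icc (0 : ℝ) 1) (hβ : β ∈ Icc (0 : ℝ) 1)
    (ht : t ∈ Icc (0 : ℝ) 1) : α + t * (β - α) ∈ Icc (0 : ℝ) 1 := by
  have h : α + t * (β - α) = (1 - t) * α + t * β := by ring
  rw [h]
  have h1 : 0 ≤ 1 - t := sub_nonneg.2 ht.2
  constructor
  · have := mul_nonneg h1 hα.1
    have := mul_nonneg ht.1 hβ.1
    linarith
  · have h2 := mul_le_mul_of_nonneg_left hα.2 h1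
    have h3 := mul_le_mul_of_nonneg_left hβ.2 ht.1
    linarith

omit [MetricSpace X] in
theorem sub_injOn {f : unitInterval → X} (hf : Function.Injective f) {α β : ℝ}
    (hα : α ∈ Icc (0 : ℝ) 1) (hβ : β ∈ Icc (0 : ℝ) 1) (hne : α ≠ β) :
    InjOn (sub f α β) (Icc 0 1) := by
  intro t ht u hu h
  have h1 := hf h
  rw [Set.projIcc_of_mem _ (sub_mem hα hβ ht), Set.projIcc_of_mem _ (sub_mem hα hβ hu)] at h1
  have h2 : α + t * (β - α) = α + u * (β - α) := congrArg Subtype.val h1
  have h3 : β - α ≠ 0 := sub_ne_zero.2 (Ne.symm hne)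
  exact mul_right_cancel₀ h3 (add_left_cancel h2)

variable [CompactSpace X]

omit [CompactSpace X] in
/-- A configuration from a separation of the complement of an arc. -/
theorem exists_config [ConnectedSpace X] {f : unitInterval → X} (hf : Continuous f)
    (hi : Function.Injective f) {U V : Set X} (hU : IsOpen U) (hV : IsOpen V)
    (hUV : Disjoint U V) (hcov : ∀ x, x ∉ U → x ∉ V → x ∈ range f) (hUn : U.Nonempty)
    (hVn : V.Nonempty) : ∃ (J : ℝ → X) (P Q : Set X), Config J P Q := by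
  set Q := interior (closure U) with hQ
  set P := (closure Q)ᶜ with hP
  have hQo : IsOpen Q := isOpen_interior
  have hPo : IsOpen P := isClosed_closure.isOpen_compl
  have hUQ : U ⊆ Q := interior_maximal subset_closure hU
  have hQcl : closure Q = closure U :=
    Subset.antisymm (closure_minimal interior_subset isClosed_closure) (closure_mono hUQ)
  have hVP : V ⊆ P := by
    intro x hx h
    rw [hQcl] at h
    obtain ⟨y, hy1, hy2⟩ := mem_closure_iff.1 h V hV hx
    exact Set.disjoint_left.1 hUV hy2 hy1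
  have hPQ : Disjoint P Q := Set.disjoint_left.2 fun x h h' => h (subset_closure h')
  have hsub : ∀ x, x ∉ P → x ∉ Q → x ∈ range f := fun x h1 h2 =>
    hcov x (fun h => h2 (hUQ h)) (fun h => h1 (hVP h))
  have hTQ : ∀ x, x ∉ P → x ∈ closure Q := fun x h => by
    by_contra h'
    exact h h'
  have hTP : ∀ x, x ∉ Q → x ∈ closure P := fun x h => by
    rw [hP, closure_compl]
    intro h'
    apply h
    rw [hQcl] at h'
    exact h'
  -- the separator is nonempty
  have hT : ∃ x, x ∉ P ∧ x ∉ Q := by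
    by_contra hno
    push Not at hno
    have hpre := (PreconnectedSpace.isPreconnected_univ : IsPreconnected (univ : Set X)) P Q hPo hQo
      (fun x _ => by
        by_cases h : x ∈ P
        · exact Or.inl h
        · exact Or.inr (hno x h))
      (by obtain ⟨v, hv⟩ := hVn; exact ⟨v, mem_univ _, hVP hv⟩)
      (by obtain ⟨u, hu⟩ := hUn; exact ⟨u, mem_univ _, hUQ hu⟩)
    obtain ⟨x, -, h1, h2⟩ := hpre
    exact Set.disjoint_left.1 hPQ h1 h2
  set Z : Set unitInterval := {t | f t ∉ P ∧ f t ∉ Q} with hZ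
  have hZc : IsCompact Z := by
    apply IsClosed.isCompact
    exact (hPo.isClosed_compl.preimage hf).inter (hQo.isClosed_compl.preimage hf)
  have hZne : Z.Nonempty := by
    obtain ⟨x, h1, h2⟩ := hT
    obtain ⟨t, rfl⟩ := hsub x h1 h2
    exact ⟨t, h1, h2⟩
  obtain ⟨t₀, ht₀, hmin⟩ := hZc.exists_isLeast hZne
  have hJ0 : ∀ β, sub f t₀ β 0 = f t₀ := by
    intro β
    simp [sub]
  have hmem : ∀ t ∈ Z, t₀ ≤ t := fun t ht => hmin ht
  have build : ∀ β : ℝ, β ∈ Icc (0 : ℝ) 1 → (t₀ : ℝ) ≠ β →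
      (∀ t ∈ Z, ∃ u ∈ Icc (0 : ℝ) 1, (t₀ : ℝ) + u * (β - t₀) = t) → Config (sub f t₀ β) P Q := by
    intro β hβ hne hcover
    refine ⟨sub_continuous hf _ _, sub_injOn hi t₀.2 hβ hne, hPo, hQo, hPQ, ?_, ?_, ?_⟩
    · intro x h1 h2
      obtain ⟨t, rfl⟩ := hsub x h1 h2
      obtain ⟨u, hu, hut⟩ := hcover t ⟨h1, h2⟩
      refine ⟨u, hu, ?_⟩
      unfold sub
      rw [hut, Set.projIcc_val]
    · rw [hJ0]; exact hTP _ ht₀.2
    · rw [hJ0]; exact hTQ _ ht₀.1
  by_cases h1 : (t₀ : ℝ) = 1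
  · refine ⟨_, _, _, build 0 ⟨le_refl 0, zero_le_one⟩ (by rw [h1]; exact one_ne_zero) ?_⟩
    intro t ht
    refine ⟨0, ⟨le_refl 0, zero_le_one⟩, ?_⟩
    have : (t₀ : ℝ) ≤ t := hmem t ht
    have h2 := t.2.2
    rw [zero_mul, add_zero]
    linarith
  · have hlt : (t₀ : ℝ) < 1 := lt_of_le_of_ne t₀.2.2 h1
    refine ⟨_, _, _, build 1 ⟨zero_le_one, le_refl 1⟩ h1 ?_⟩
    intro t ht
    have h3 : (t₀ : ℝ) ≤ t := hmem t ht
    have h2 := t.2.2
    have h4 : 0 < 1 - (t₀ : ℝ) := by linarith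
    refine ⟨((t : ℝ) - t₀) / (1 - t₀), ⟨div_nonneg (by linarith) h4.le, ?_⟩, ?_⟩
    · rw [div_le_one h4]; linarith
    · field_simp
      ring

/-- **Main theorem**, with Effros' theorem as a hypothesis. -/
theorem arc_compl [ConnectedSpace X] (hom : ∀ x y : X, ∃ h : X ≃ₜ X, h x = y) (eff : Eff X)
    (hdim : ∃ (C : Set X) (f : X → ℂ), IsClosed C ∧ ContinuousOn f C ∧ (∀ x ∈ C, f x ≠ 0) ∧
      ¬ ∃ F : X → ℂ, Continuous F ∧ (∀ x, F x ≠ 0) ∧ ∀ x ∈ C, F x = f x)
    {f : unitInterval → X} (hf : Continuous f) (hi : Function.Injective f) :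
    IsConnected (range f)ᶜ := by
  obtain ⟨C, u, hC, hu, hune, hno⟩ := hdim
  have hrange : IsClosed (range f) := (isCompact_range hf).isClosed
  constructor
  · by_contra hemp
    rw [Set.not_nonempty_iff_eq_empty, compl_empty_iff] at hemp
    apply hno
    obtain ⟨φ, hφ, hφe⟩ := exists_log hC (sub_continuous hf 0 1)
      (sub_injOn hi ⟨le_refl 0, zero_le_one⟩ ⟨zero_le_one, le_refl 1⟩ zero_ne_one) (by
        intro x _
        have hx : x ∈ range f := hemp ▸ mem_univ x
        obtain ⟨t, rfl⟩ := hx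
        refine ⟨t, t.2, ?_⟩
        unfold sub
        have : (0 : ℝ) + t * (1 - 0) = t := by ring
        rw [this, Set.projIcc_val]) hu hune
    obtain ⟨Φ, hΦ, hΦφ⟩ := tietze hC hφ
    refine ⟨fun x => Complex.exp (Φ x), Complex.continuous_exp.comp hΦ,
      fun x => Complex.exp_ne_zero _, fun x hx => ?_⟩
    show Complex.exp (Φ x) = u x
    rw [hΦφ x hx, hφe x hx]
  · by_contra hpre
    have hmem : ¬ Ext C univ u := by
      rintro ⟨F, hF, hn, hFu⟩
      exact hno ⟨F, continuousOn_univ.1 hF, fun x => hn x (mem_univ x), hFu⟩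
    obtain ⟨K, -, m⟩ := exists_membrane isClosed_univ hC (subset_univ _) hu hune hmem
    unfold IsPreconnected at hpre
    push Not at hpre
    obtain ⟨u', v', hu', hv', hcov, hun, hvn, hemp⟩ := hpre
    obtain ⟨J, P, Q, c⟩ := exists_config hf hi (U := (range f)ᶜ ∩ u') (V := (range f)ᶜ ∩ v')
      (hrange.isOpen_compl.inter hu') (hrange.isOpen_compl.inter hv') (by
        rw [Set.disjoint_left]
        rintro x ⟨h1, h2⟩ ⟨_, h3⟩
        have : x ∈ (range f)ᶜ ∩ (u' ∩ v') := ⟨h1, h2, h3⟩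
        rw [hemp] at this
        exact this) (by
        intro x h1 h2
        by_contra h3
        rcases hcov h3 with h | h
        · exact h1 ⟨h3, h⟩
        · exact h2 ⟨h3, h⟩) hun hvn
    exact no_config hom eff c m

end Pool.Agent.H84.ArcSep
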