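import Mathlib

/-!
# Arcs do not separate homogeneous continua: basic notions

Membranes (irreducible carriers of non-extendable maps to `ℂ ∖ {0}`) and configurations
(separators contained in an arc).
-/

set_option autoImplicit false

open Set Metric

namespace Pool.Agent.H84.ArcSep

/-- `h` moves every point by less than `ε`. -/
def Near {X : Type*} [MetricSpace X] (ε : ℝ) (h : X ≃ₜ X) : Prop := ∀ p, dist (h p) p < ε

section
variable {X : Type*} [MetricSpace X]

theorem Near.mono {ε δ : ℝ} {h : X ≃ₜ X} (H : Near ε h) (hle : ε ≤ δ) : Near δ h :=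
  fun p => (H p).trans_le hle

theorem Near.symm {ε : ℝ} {h : X ≃ₜ X} (H : Near ε h) : Near ε h.symm := by
  intro p
  have := H (h.symm p)
  rw [Homeomorph.apply_symm_apply] at this
  rwa [dist_comm]

theorem Near.trans {ε δ : ℝ} {h g : X ≃ₜ X} (H : Near ε h) (G : Near δ g) :
    Near (ε + δ) (h.trans g) := by
  intro p
  calc dist (g (h p)) p ≤ dist (g (h p)) (h p) + dist (h p) p := dist_triangle _ _ _
    _ < δ + ε := add_lt_add (G _) (H _)
    _ = ε + δ := add_comm _ _

/-- `f : C → ℂ ∖ {0}` extends continuously over `K`. -/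
def Ext (C K : Set X) (f : X → ℂ) : Prop :=
  ∃ F : X → ℂ, ContinuousOn F K ∧ (∀ x ∈ K, F x ≠ 0) ∧ ∀ x ∈ C, F x = f x

/-- `K` is an irreducible membrane for `f : C → ℂ ∖ {0}`. -/
structure Membrane (K C : Set X) (f : X → ℂ) : Prop where
  closedK : IsClosed K
  closedC : IsClosed C
  sub : C ⊆ K
  cont : ContinuousOn f C
  ne : ∀ x ∈ C, f x ≠ 0
  not_ext : ¬ Ext C K f
  min : ∀ K', IsClosed K' → C ⊆ K' → K' ⊆ K → K' ≠ K → Ext C K' f

/-- A configuration: the complement of the disjoint open sets `P`, `Q` is contained in the arc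
`J [0,1]`, whose initial point is a limit of both. -/
structure Config (J : ℝ → X) (P Q : Set X) : Prop where
  cont : Continuous J
  inj : InjOn J (Icc 0 1)
  openP : IsOpen P
  openQ : IsOpen Q
  disj : Disjoint P Q
  sub : ∀ x, x ∉ P → x ∉ Q → x ∈ J '' Icc 0 1
  memP : J 0 ∈ closure P
  memQ : J 0 ∈ closure Q

theorem Config.symm {J : ℝ → X} {P Q : Set X} (c : Config J P Q) : Config J Q P :=
  ⟨c.cont, c.inj, c.openQ, c.openP, c.disj.symm, fun x h h' => c.sub x h' h, c.memQ, c.memP⟩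

theorem Config.map {J : ℝ → X} {P Q : Set X} (c : Config J P Q) (g : X ≃ₜ X) :
    Config (fun t => g (J t)) (g '' P) (g '' Q) := by
  refine ⟨g.continuous.comp c.cont, ?_, g.isOpenMap _ c.openP, g.isOpenMap _ c.openQ, ?_, ?_, ?_, ?_⟩
  · intro s hs t ht h
    exact c.inj hs ht (g.injective h)
  · exact (Set.disjoint_image_iff g.injective).2 c.disj
  · intro x hP hQ
    have h1 : g.symm x ∉ P := fun h => hP ⟨_, h, by simp⟩
    have h2 : g.symm x ∉ Q := fun h => hQ ⟨_, h, by simp⟩
    obtain ⟨t, ht, h⟩ := c.sub _ h1 h2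
    exact ⟨t, ht, by simp [h]⟩
  · rw [← g.image_closure]; exact ⟨_, c.memP, rfl⟩
  · rw [← g.image_closure]; exact ⟨_, c.memQ, rfl⟩

theorem Config.notP {J : ℝ → X} {P Q : Set X} (c : Config J P Q) : J 0 ∉ P := by
  intro h
  obtain ⟨x, hx, hx'⟩ := mem_closure_iff.1 c.memQ P c.openP h
  exact Set.disjoint_left.1 c.disj hx hx'

theorem Config.notQ {J : ℝ → X} {P Q : Set X} (c : Config J P Q) : J 0 ∉ Q := c.symm.notP

theorem Ext.map {C K : Set X} {f : X → ℂ} (g : X ≃ₜ X) (h : Ext C K f) :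
    Ext (g '' C) (g '' K) (fun x => f (g.symm x)) := by
  obtain ⟨F, hF, hne, hC⟩ := h
  refine ⟨fun x => F (g.symm x), ?_, ?_, ?_⟩
  · refine hF.comp g.symm.continuous.continuousOn ?_
    rintro _ ⟨y, hy, rfl⟩
    simpa using hy
  · rintro _ ⟨y, hy, rfl⟩
    simpa using hne y hy
  · rintro _ ⟨y, hy, rfl⟩
    simpa using hC y hy

theorem Ext.of_map {C K : Set X} {f : X → ℂ} (g : X ≃ₜ X)
    (h : Ext (g '' C) (g '' K) (fun x => f (g.symm x))) : Ext C K f := by
  have := h.map g.symm
  simpa [Set.image_image] using this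

theorem Membrane.map {K C : Set X} {f : X → ℂ} (m : Membrane K C f) (g : X ≃ₜ X) :
    Membrane (g '' K) (g '' C) (fun x => f (g.symm x)) := by
  refine ⟨g.isClosedMap _ m.closedK, g.isClosedMap _ m.closedC, Set.image_mono m.sub, ?_, ?_, ?_, ?_⟩
  · refine m.cont.comp g.symm.continuous.continuousOn ?_
    rintro _ ⟨y, hy, rfl⟩
    simpa using hy
  · rintro _ ⟨y, hy, rfl⟩
    simpa using m.ne y hy
  · exact fun h => m.not_ext (h.of_map g)
  · intro K' hK' hCK' hK'K hne
    have h1 : IsClosed (g.symm '' K') := g.symm.isClosedMap _ hK'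
    have h2 : C ⊆ g.symm '' K' := by
      intro x hx
      exact ⟨g x, hCK' ⟨x, hx, rfl⟩, by simp⟩
    have h3 : g.symm '' K' ⊆ K := by
      rintro _ ⟨y, hy, rfl⟩
      obtain ⟨z, hz, rfl⟩ := hK'K hy
      simpa using hz
    have h4 : g.symm '' K' ≠ K := by
      intro h
      apply hne
      rw [← h]
      simp [Set.image_image]
    have := (m.min _ h1 h2 h3 h4).map g
    simpa [Set.image_image] using this

end

end Pool.Agent.H84.ArcSep
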