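import Pool.Agent.H84.ArcSep.Basic

/-!
# Uniform micro-transitivity (Effros, Ungar) for compact metric homogeneous spaces

`effros`: if `X` is a compact metric space whose homeomorphism group acts transitively, then for
every `ε > 0` there is `δ > 0` such that any two points at distance less than `δ` are exchanged by a
homeomorphism moving every point by less than `ε`.
-/

set_option autoImplicit false
open Set Topology Filter Metric

namespace Pool.Agent.H84.ArcSep

namespace EffrosAux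

section Abs

variable {G X : Type*} [MetricSpace G] [MetricSpace X]

/-- One step of the back and forth. -/
theorem step {f₁ f₂ : G → X} (hf₁ : Continuous f₁)
    (ha₁ : ∀ g r, 0 < r → f₁ g ∈ interior (closure (f₁ '' ball g r)))
    (ha₂ : ∀ g r, 0 < r → f₂ g ∈ interior (closure (f₂ '' ball g r)))
    {a b : G} {r : ℝ} (hr : 0 < r)
    (hne : (interior (closure (f₁ '' ball a r)) ∩ interior (closure (f₂ '' ball b r))).Nonempty) :
    ∃ (a' b' : G) (r' : ℝ), dist a a' ≤ r ∧ dist b b' ≤ r ∧ 0 < r' ∧ r' ≤ r / 2 ∧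
      dist (f₁ a') (f₂ b') ≤ r ∧
      (interior (closure (f₁ '' ball a' r')) ∩ interior (closure (f₂ '' ball b' r'))).Nonempty := by
  obtain ⟨w, hw⟩ := hne
  have hWo : IsOpen (interior (closure (f₁ '' ball a r)) ∩ interior (closure (f₂ '' ball b r))) :=
    isOpen_interior.inter isOpen_interior
  obtain ⟨_, hW1, ⟨a', ha', rfl⟩⟩ := mem_closure_iff.1 (interior_subset hw.1) _ hWo hw
  obtain ⟨s, hs, hs'⟩ := Metric.continuous_iff.1 hf₁ a' r hr
  set r' := min s (r / 2) with hr'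
  have hr'0 : 0 < r' := lt_min hs (by linarith)
  have h1 : f₁ a' ∈ interior (closure (f₁ '' ball a' r')) ∩ interior (closure (f₂ '' ball b r)) :=
    ⟨ha₁ a' r' hr'0, hW1.2⟩
  have hWo' : IsOpen (interior (closure (f₁ '' ball a' r')) ∩
      interior (closure (f₂ '' ball b r))) := isOpen_interior.inter isOpen_interior
  obtain ⟨_, hW2, ⟨b', hb', rfl⟩⟩ := mem_closure_iff.1 (interior_subset h1.2) _ hWo' h1
  refine ⟨a', b', r', ?_, ?_, hr'0, min_le_right _ _, ?_, ⟨f₂ b', hW2.1, ha₂ b' r' hr'0⟩⟩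
  · rw [dist_comm]; exact (mem_ball.1 ha').le
  · rw [dist_comm]; exact (mem_ball.1 hb').le
  · have h2 : closure (f₁ '' ball a' r') ⊆ closedBall (f₁ a') r := by
      apply closure_minimal _ isClosed_closedBall
      rintro _ ⟨c, hc, rfl⟩
      exact (hs' c (lt_of_lt_of_le (mem_ball.1 hc) (min_le_left _ _))).le
    have h3 := h2 (interior_subset hW2.1)
    rw [mem_closedBall, dist_comm] at h3
    exact h3

/-- Two almost open continuous maps from a complete metric space whose almost images meet have a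
common value. -/
theorem common_value [CompleteSpace G] {f₁ f₂ : G → X} (hf₁ : Continuous f₁) (hf₂ : Continuous f₂)
    (ha₁ : ∀ g r, 0 < r → f₁ g ∈ interior (closure (f₁ '' ball g r)))
    (ha₂ : ∀ g r, 0 < r → f₂ g ∈ interior (closure (f₂ '' ball g r)))
    {a b : G} {r : ℝ} (hr : 0 < r)
    (hne : (interior (closure (f₁ '' ball a r)) ∩ interior (closure (f₂ '' ball b r))).Nonempty) :
    ∃ g₁ g₂ : G, dist a g₁ ≤ 2 * r ∧ dist b g₂ ≤ 2 * r ∧ f₁ g₁ = f₂ g₂ := by
  classical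
  let S := {s : G × G × ℝ // 0 < s.2.2 ∧ (interior (closure (f₁ '' ball s.1 s.2.2)) ∩
    interior (closure (f₂ '' ball s.2.1 s.2.2))).Nonempty}
  have hstep : ∀ s : S, ∃ t : S, dist s.1.1 t.1.1 ≤ s.1.2.2 ∧ dist s.1.2.1 t.1.2.1 ≤ s.1.2.2 ∧
      t.1.2.2 ≤ s.1.2.2 / 2 ∧ dist (f₁ t.1.1) (f₂ t.1.2.1) ≤ s.1.2.2 := by
    rintro ⟨⟨a, b, r⟩, hr, hne⟩
    obtain ⟨a', b', r', h1, h2, h3, h4, h5, h6⟩ := step hf₁ ha₁ ha₂ hr hne
    exact ⟨⟨(a', b', r'), h3, h6⟩, h1, h2, h4, h5⟩
  choose nxt hn1 hn2 hn3 hn4 using hstep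
  let s : ℕ → S := fun n => Nat.rec ⟨(a, b, r), hr, hne⟩ (fun _ t => nxt t) n
  have hs0 : (s 0).1 = (a, b, r) := rfl
  have hss : ∀ n, s (n + 1) = nxt (s n) := fun n => rfl
  have hrad : ∀ n, (s n).1.2.2 ≤ r * (1 / 2) ^ n := by
    intro n
    induction n with
    | zero => simp [hs0]
    | succ n ih =>
      rw [hss, pow_succ]
      have := hn3 (s n)
      linarith
  have hd1 : ∀ n, dist ((s n).1.1) ((s (n + 1)).1.1) ≤ r * (1 / 2) ^ n := fun n =>
    (hn1 (s n)).trans (hrad n)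
  have hd2 : ∀ n, dist ((s n).1.2.1) ((s (n + 1)).1.2.1) ≤ r * (1 / 2) ^ n := fun n =>
    (hn2 (s n)).trans (hrad n)
  have hlt : (1 / 2 : ℝ) < 1 := by norm_num
  have hc1 : CauchySeq fun n => (s n).1.1 := cauchySeq_of_le_geometric (1 / 2) r hlt hd1
  have hc2 : CauchySeq fun n => (s n).1.2.1 := cauchySeq_of_le_geometric (1 / 2) r hlt hd2
  obtain ⟨g₁, hg₁⟩ := cauchySeq_tendsto_of_complete hc1
  obtain ⟨g₂, hg₂⟩ := cauchySeq_tendsto_of_complete hc2
  refine ⟨g₁, g₂, ?_, ?_, ?_⟩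
  · have := dist_le_of_le_geometric_of_tendsto₀ (1 / 2) r hlt hd1 hg₁
    rw [hs0] at this
    calc dist a g₁ ≤ r / (1 - 1 / 2) := this
      _ = 2 * r := by ring
  · have := dist_le_of_le_geometric_of_tendsto₀ (1 / 2) r hlt hd2 hg₂
    rw [hs0] at this
    calc dist b g₂ ≤ r / (1 - 1 / 2) := this
      _ = 2 * r := by ring
  · have t1 : Tendsto (fun n => dist (f₁ (s (n + 1)).1.1) (f₂ (s (n + 1)).1.2.1)) atTop
        (𝓝 (dist (f₁ g₁) (f₂ g₂))) := by
      have h1 : Tendsto (fun n => dist (f₁ (s n).1.1) (f₂ (s n).1.2.1)) atTop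
        (𝓝 (dist (f₁ g₁) (f₂ g₂))) :=
        ((hf₁.tendsto g₁).comp hg₁).dist ((hf₂.tendsto g₂).comp hg₂)
      exact h1.comp (tendsto_add_atTop_nat 1)
    have t2 : Tendsto (fun n : ℕ => r * (1 / 2 : ℝ) ^ n) atTop (𝓝 0) := by
      have := (tendsto_pow_atTop_nhds_zero_of_lt_one (r := (1 / 2 : ℝ)) (by norm_num) hlt).const_mul r
      simpa using this
    have h0 : dist (f₁ g₁) (f₂ g₂) ≤ 0 :=
      le_of_tendsto_of_tendsto' t1 t2 fun n => (hn4 (s n)).trans (hrad n)
    exact dist_le_zero.1 h0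

end Abs

section group

variable {X : Type*} [MetricSpace X] [CompactSpace X]

/-- the pair (h, h⁻¹) -/
def pr (h : X ≃ₜ X) : C(X, X) × C(X, X) :=
  (⟨h, h.continuous⟩, ⟨h.symm, h.symm.continuous⟩)

omit [CompactSpace X] in
theorem pr_injective : Function.Injective (pr : (X ≃ₜ X) → C(X, X) × C(X, X)) := by
  intro g h hgh
  ext x
  have := congrArg (fun q : C(X, X) × C(X, X) => q.1 x) hgh
  simpa [pr] using this

/-- the metric max (sup d(g,h)) (sup d(g⁻¹,h⁻¹)) on the homeomorphism group -/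
noncomputable scoped instance : MetricSpace (X ≃ₜ X) := MetricSpace.induced pr pr_injective inferInstance

theorem isometry_pr : Isometry (pr : (X ≃ₜ X) → C(X, X) × C(X, X)) := fun _ _ => rfl

theorem dist_apply_le (g h : X ≃ₜ X) (p : X) : dist (g p) (h p) ≤ dist g h := by
  have h1 : dist (g p) (h p) ≤ dist (pr g).1 (pr h).1 :=
    ContinuousMap.dist_apply_le_dist (f := (pr g).1) (g := (pr h).1) p
  exact h1.trans (le_max_left _ _)

theorem dist_symm_apply_le (g h : X ≃ₜ X) (p : X) : dist (g.symm p) (h.symm p) ≤ dist g h := by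
  have h1 : dist (g.symm p) (h.symm p) ≤ dist (pr g).2 (pr h).2 :=
    ContinuousMap.dist_apply_le_dist (f := (pr g).2) (g := (pr h).2) p
  exact h1.trans (le_max_right _ _)

omit [CompactSpace X] in
theorem range_pr : range (pr : (X ≃ₜ X) → C(X, X) × C(X, X)) =
    {q | q.1.comp q.2 = ContinuousMap.id X ∧ q.2.comp q.1 = ContinuousMap.id X} := by
  ext q
  constructor
  · rintro ⟨h, rfl⟩
    constructor
    · ext x; simp [pr]
    · ext x; simp [pr]
  · rintro ⟨h1, h2⟩
    refine ⟨⟨⟨q.1, q.2, fun x => ?_, fun x => ?_⟩, q.1.continuous, q.2.continuous⟩, ?_⟩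
    · exact congrArg (fun f : C(X, X) => f x) h2
    · exact congrArg (fun f : C(X, X) => f x) h1
    · rfl

scoped instance : CompleteSpace (X ≃ₜ X) := by
  rw [completeSpace_iff_isComplete_range isometry_pr.isUniformInducing]
  apply IsClosed.isComplete
  rw [range_pr]
  have c1 : Continuous fun q : C(X, X) × C(X, X) => q.1.comp q.2 :=
    ContinuousMap.continuous_comp'.comp continuous_swap
  have c2 : Continuous fun q : C(X, X) × C(X, X) => q.2.comp q.1 :=
    ContinuousMap.continuous_comp'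
  exact (isClosed_eq c1 continuous_const).inter (isClosed_eq c2 continuous_const)

scoped instance : TopologicalSpace.SeparableSpace (X ≃ₜ X) := by
  have : SecondCountableTopology (X ≃ₜ X) :=
    isometry_pr.isUniformInducing.isInducing.secondCountableTopology
  infer_instance

scoped instance : ContinuousMul (X ≃ₜ X) where
  continuous_mul := by
    rw [isometry_pr.isUniformInducing.isInducing.continuous_iff]
    have cp : Continuous (pr : (X ≃ₜ X) → C(X, X) × C(X, X)) := isometry_pr.continuous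
    have c1 : Continuous fun q : (X ≃ₜ X) × (X ≃ₜ X) => (pr q.1).1.comp (pr q.2).1 :=
      ContinuousMap.continuous_comp'.comp
        ((continuous_fst.comp (cp.comp continuous_snd)).prodMk
          (continuous_fst.comp (cp.comp continuous_fst)))
    have c2 : Continuous fun q : (X ≃ₜ X) × (X ≃ₜ X) => (pr q.2).2.comp (pr q.1).2 :=
      ContinuousMap.continuous_comp'.comp
        ((continuous_snd.comp (cp.comp continuous_fst)).prodMk
          (continuous_snd.comp (cp.comp continuous_snd)))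
    exact c1.prodMk c2

scoped instance : ContinuousInv (X ≃ₜ X) where
  continuous_inv := by
    rw [isometry_pr.isUniformInducing.isInducing.continuous_iff]
    have cp : Continuous (pr : (X ≃ₜ X) → C(X, X) × C(X, X)) := isometry_pr.continuous
    exact continuous_swap.comp cp

theorem continuous_eval (x : X) : Continuous fun g : X ≃ₜ X => g x := by
  have : LipschitzWith 1 fun g : X ≃ₜ X => g x := by
    refine LipschitzWith.of_dist_le_mul fun g h => ?_
    simpa using dist_apply_le g h x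
  exact this.continuous

theorem nbhd (γ : X ≃ₜ X) {r : ℝ} (hr : 0 < r) : ∃ U : Set (X ≃ₜ X), IsOpen U ∧ (1 : X ≃ₜ X) ∈ U ∧
    ∀ u ∈ U, ∀ v ∈ U, γ * (u⁻¹ * v) ∈ ball γ r := by
  have hm : Continuous fun q : (X ≃ₜ X) × (X ≃ₜ X) => γ * (q.1⁻¹ * q.2) :=
    continuous_const.mul (continuous_fst.inv.mul continuous_snd)
  have hO : IsOpen ((fun q : (X ≃ₜ X) × (X ≃ₜ X) => γ * (q.1⁻¹ * q.2)) ⁻¹' ball γ r) :=
    isOpen_ball.preimage hm
  have h1 : ((1 : X ≃ₜ X), (1 : X ≃ₜ X)) ∈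
      ((fun q : (X ≃ₜ X) × (X ≃ₜ X) => γ * (q.1⁻¹ * q.2)) ⁻¹' ball γ r) := by
    have : γ * ((1 : X ≃ₜ X)⁻¹ * 1) = γ := by group
    have h2 : γ * ((1 : X ≃ₜ X)⁻¹ * 1) ∈ ball γ r := by
      rw [this]
      exact mem_ball_self hr
    exact h2
  obtain ⟨U, V, hU, hV, hU1, hV1, hUV⟩ := isOpen_prod_iff.1 hO 1 1 h1
  refine ⟨U ∩ V, hU.inter hV, ⟨hU1, hV1⟩, fun u hu v hv => ?_⟩
  have h3 : (u, v) ∈ U ×ˢ V := mk_mem_prod hu.1 hv.2
  have h4 := hUV h3
  exact h4

theorem dense_step {U : Set (X ≃ₜ X)} (hUo : IsOpen U) (h1U : (1 : X ≃ₜ X) ∈ U) (h : X ≃ₜ X) :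
    ∃ n : ℕ, (TopologicalSpace.denseSeq (X ≃ₜ X) n)⁻¹ * h ∈ U := by
  have hc : Continuous fun k : X ≃ₜ X => k⁻¹ * h := continuous_id.inv.mul continuous_const
  have ho : IsOpen ((fun k : X ≃ₜ X => k⁻¹ * h) ⁻¹' U) := hUo.preimage hc
  have hne : ((fun k : X ≃ₜ X => k⁻¹ * h) ⁻¹' U).Nonempty := ⟨h, by
    have : h⁻¹ * h = 1 := by group
    rw [mem_preimage, this]; exact h1U⟩
  obtain ⟨n, hn⟩ := (TopologicalSpace.denseRange_denseSeq (X ≃ₜ X)).exists_mem_open ho hne
  exact ⟨n, hn⟩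

/-- almost openness of the evaluation maps -/
theorem almost_open (hom : ∀ x y : X, ∃ h : X ≃ₜ X, h x = y) (x : X) (γ : X ≃ₜ X) {r : ℝ}
    (hr : 0 < r) : γ x ∈ interior (closure ((fun g : X ≃ₜ X => g x) '' ball γ r)) := by
  classical
  have : Nonempty X := ⟨x⟩
  obtain ⟨U, hUo, h1U, hUV⟩ := nbhd γ hr
  -- the orbit piece
  set E : Set X := (fun g : X ≃ₜ X => g x) '' U with hE
  -- countably many translates cover
  have hcov : ⋃ n, closure (TopologicalSpace.denseSeq (X ≃ₜ X) n '' E) = univ := by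
    rw [eq_univ_iff_forall]
    intro p
    obtain ⟨h, hh⟩ := hom x p
    obtain ⟨n, hn⟩ := dense_step hUo h1U h
    rw [mem_iUnion]
    refine ⟨n, subset_closure ⟨_, ⟨_, hn, rfl⟩, ?_⟩⟩
    simp only [Homeomorph.mul_apply, hh]
    rw [← Homeomorph.mul_apply, mul_inv_cancel, Homeomorph.one_apply]
  obtain ⟨n, hn⟩ := nonempty_interior_of_iUnion_of_closed (fun n => isClosed_closure) hcov
  -- hence `closure E` has non-empty interior
  have hEint : (interior (closure E)).Nonempty := by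
    rw [← Homeomorph.image_closure, ← Homeomorph.image_interior] at hn
    exact hn.of_image
  obtain ⟨w, hw⟩ := hEint
  obtain ⟨_, hW1, ⟨u, hu, rfl⟩⟩ := mem_closure_iff.1 (interior_subset hw) _ isOpen_interior hw
  have key : γ x ∈ (γ * u⁻¹) '' interior (closure E) := by
    refine ⟨u x, hW1, ?_⟩
    rw [← Homeomorph.mul_apply, inv_mul_cancel_right]
  rw [Homeomorph.image_interior, Homeomorph.image_closure] at key
  refine interior_mono (closure_mono ?_) key
  rintro _ ⟨_, ⟨v, hv, rfl⟩, rfl⟩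
  exact ⟨γ * (u⁻¹ * v), hUV u hu v hv, rfl⟩

end group

end EffrosAux

open EffrosAux in
/-- Effros / Ungar: uniform micro-transitivity of the homeomorphism group. -/
theorem effros {X : Type*} [MetricSpace X] [CompactSpace X]
    (hom : ∀ x y : X, ∃ h : X ≃ₜ X, h x = y) {ε : ℝ} (hε : 0 < ε) :
    ∃ δ > 0, ∀ x y : X, dist x y < δ → ∃ h : X ≃ₜ X, h x = y ∧ Near ε h := by
  classical
  set r : ℝ := ε / 10 with hr
  have hr0 : 0 < r := by positivity
  let W : X → Set X := fun z => interior (closure ((fun g : X ≃ₜ X => g z) '' ball 1 r))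
  have hW : ∀ z, z ∈ W z := fun z => almost_open hom z 1 hr0
  obtain ⟨δ, hδ, hL⟩ := lebesgue_number_lemma_of_metric (s := (univ : Set X)) isCompact_univ
    (c := W) (fun z => isOpen_interior) (fun z _ => mem_iUnion.2 ⟨z, hW z⟩)
  -- the basic move
  have move : ∀ x z : X, x ∈ W z → ∃ g₁ g₂ : X ≃ₜ X, dist 1 g₁ ≤ 2 * r ∧ dist 1 g₂ ≤ 2 * r ∧
      g₁ x = g₂ z := by
    intro x z hxz
    exact common_value (continuous_eval x) (continuous_eval z)
      (fun g r hr => almost_open hom x g hr) (fun g r hr => almost_open hom z g hr) hr0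
      ⟨x, hW x, hxz⟩
  have near : ∀ g : X ≃ₜ X, dist 1 g ≤ 2 * r → ∀ p, dist (g p) p ≤ 2 * r := by
    intro g hg p
    have := dist_apply_le 1 g p
    rw [dist_comm]
    exact this.trans hg
  have near' : ∀ g : X ≃ₜ X, dist 1 g ≤ 2 * r → ∀ p, dist (g⁻¹ p) p ≤ 2 * r := by
    intro g hg p
    have := dist_symm_apply_le 1 g p
    rw [dist_comm]
    exact this.trans hg
  refine ⟨δ, hδ, fun x y hxy => ?_⟩
  obtain ⟨z, hz⟩ := hL x (mem_univ x)
  have hxz : x ∈ W z := hz (mem_ball_self hδ)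
  have hyz : y ∈ W z := hz (by rwa [mem_ball, dist_comm])
  obtain ⟨g₁, g₂, h1, h2, h3⟩ := move x z hxz
  obtain ⟨g₃, g₄, h4, h5, h6⟩ := move y z hyz
  refine ⟨g₃⁻¹ * (g₄ * (g₂⁻¹ * g₁)), ?_, fun p => ?_⟩
  · simp only [Homeomorph.mul_apply, h3]
    have e1 : g₂⁻¹ (g₂ z) = z := by simp
    rw [e1, ← h6]
    simp
  · simp only [Homeomorph.mul_apply]
    have a1 := near g₁ h1 p
    have a2 := near' g₂ h2 (g₁ p)
    have a3 := near g₄ h5 (g₂⁻¹ (g₁ p))
    have a4 := near' g₃ h4 (g₄ (g₂⁻¹ (g₁ p)))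
    have t1 := dist_triangle (g₃⁻¹ (g₄ (g₂⁻¹ (g₁ p)))) (g₄ (g₂⁻¹ (g₁ p))) p
    have t2 := dist_triangle (g₄ (g₂⁻¹ (g₁ p))) (g₂⁻¹ (g₁ p)) p
    have t3 := dist_triangle (g₂⁻¹ (g₁ p)) (g₁ p) p
    have : r = ε / 10 := hr
    linarith

end Pool.Agent.H84.ArcSep
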