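import Pool.Agent.H84.ArcSep.Germ

/-!
# There are no configurations in a homogeneous continuum of dimension at least two
-/

set_option autoImplicit false

open Set Metric

namespace Pool.Agent.H84.ArcSep

variable {X : Type*} [MetricSpace X] [CompactSpace X]

theorem no_config_aux (eff : Eff X) {J : ℝ → X} {P Q : Set X} (c : Config J P Q) {K C : Set X}
    {f : X → ℂ} (m : Membrane K C f) (h0 : J 0 ∈ K) (h0C : J 0 ∉ C) : False := by
  have inj : ∀ a ∈ Icc (0 : ℝ) 1, ∀ b ∈ Icc (0 : ℝ) 1, J a = J b → a = b :=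
    fun a ha b hb h => c.inj ha hb h
  have hJcl : ∀ a b : ℝ, IsClosed (J '' Icc a b) := fun a b =>
    (isCompact_Icc.image c.cont).isClosed
  -- the parameter `s`
  obtain ⟨s, hs0, hs1, hJC⟩ : ∃ s : ℝ, 0 < s ∧ s ≤ 1 ∧ ∀ t ∈ Icc 0 s, J t ∉ C := by
    obtain ⟨ρ, hρ, hb⟩ := Metric.isOpen_iff.1 (m.closedC.isOpen_compl.preimage c.cont) 0 h0C
    refine ⟨min (ρ / 2) 1, by positivity, min_le_right _ _, fun t ht => hb ?_⟩
    rw [mem_ball, Real.dist_eq, sub_zero, abs_of_nonneg ht.1]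
    have := ht.2.trans (min_le_left _ _)
    linarith
  set s' := s / 2 with hs'def
  have hs' : 0 < s' := by positivity
  have hs's : s' < s := by rw [hs'def]; linarith
  have hs'1 : s' < 1 := hs's.trans_le hs1
  have hT : ∀ t ∈ Icc 0 s, J t ∉ P ∪ Q := fun t ht =>
    (key eff c m h0 ⟨hs0.le, hs1⟩ hJC t ht).2
  -- the constants
  obtain ⟨e₁, he₁, h1⟩ := sep (isCompact_singleton (x := J 1)) (hJcl 0 s') (by
    rw [Set.disjoint_left]
    rintro x hx ⟨u, hu, h⟩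
    rw [mem_singleton_iff] at hx
    subst hx
    have := inj u ⟨hu.1, hu.2.trans hs'1.le⟩ 1 ⟨zero_le_one, le_refl 1⟩ h
    rw [this] at hu
    exact absurd hu.2 (not_le.2 hs'1))
  obtain ⟨e₂, he₂, h2⟩ := sep (isCompact_singleton (x := J 0)) (hJcl (s' / 2) 1) (by
    rw [Set.disjoint_left]
    rintro x hx ⟨u, hu, h⟩
    rw [mem_singleton_iff] at hx
    subst hx
    have := inj u ⟨(by positivity : (0 : ℝ) ≤ s' / 2).trans hu.1, hu.2⟩ 0
      ⟨le_refl 0, zero_le_one⟩ h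
    rw [this] at hu
    have := hu.1
    linarith)
  obtain ⟨e₃, he₃, h3⟩ := sep (isCompact_singleton (x := J s')) (hJcl 0 (s' / 2)) (by
    rw [Set.disjoint_left]
    rintro x hx ⟨u, hu, h⟩
    rw [mem_singleton_iff] at hx
    subst hx
    have h5 := hu.2
    have := inj u ⟨hu.1, by linarith⟩ s' ⟨hs'.le, hs'1.le⟩ h
    rw [this] at h5
    linarith)
  have h1' : ∀ x, dist x (J 1) < e₁ → x ∉ J '' Ico 0 s' := by
    rintro x hx ⟨u, hu, rfl⟩
    have := h1 (J 1) rfl (J u) ⟨u, ⟨hu.1, hu.2.le⟩, rfl⟩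
    rw [dist_comm] at this
    linarith
  have h2' : ∀ t ∈ Icc (0 : ℝ) 1, dist (J t) (J 0) < e₂ → t < s' / 2 := by
    intro t ht hd
    by_contra hlt
    have := h2 (J 0) rfl (J t) ⟨t, ⟨not_lt.1 hlt, ht.2⟩, rfl⟩
    rw [dist_comm] at this
    linarith
  have h3' : ∀ t ∈ Icc (0 : ℝ) 1, dist (J t) (J s') < e₃ → s' / 2 < t := by
    intro t ht hd
    by_contra hlt
    have := h3 (J s') rfl (J t) ⟨t, ⟨ht.1, not_lt.1 hlt⟩, rfl⟩
    rw [dist_comm] at this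
    linarith
  obtain ⟨ε₀, hε₀, hε₁, hε₂, hε₃⟩ : ∃ ε₀ : ℝ, 0 < ε₀ ∧ 4 * ε₀ ≤ e₁ ∧ 4 * ε₀ ≤ e₂ ∧ 4 * ε₀ ≤ e₃ := by
    refine ⟨min e₁ (min e₂ e₃) / 4, by positivity, ?_, ?_, ?_⟩
    · have := min_le_left e₁ (min e₂ e₃)
      linarith
    · have := (min_le_right e₁ (min e₂ e₃)).trans (min_le_left _ _)
      linarith
    · have := (min_le_right e₁ (min e₂ e₃)).trans (min_le_right _ _)
      linarith
  obtain ⟨δ₀, hδ₀, hE₀⟩ := eff ε₀ hε₀
  obtain ⟨ε, hε, hεδ, hεε⟩ : ∃ ε : ℝ, 0 < ε ∧ 4 * ε ≤ δ₀ ∧ ε ≤ ε₀ :=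
    ⟨min (δ₀ / 4) ε₀, by positivity, by have := min_le_left (δ₀ / 4) ε₀; linarith,
      min_le_right _ _⟩
  obtain ⟨δ, hδ, hE⟩ := eff ε hε
  obtain ⟨τ, hτ0, hτs, hτ⟩ : ∃ τ : ℝ, 0 < τ ∧ τ < s' / 2 ∧
      ∀ t ∈ Icc 0 τ, dist (J t) (J 0) < min δ ε := by
    obtain ⟨ρ, hρ, hb⟩ := Metric.continuous_iff.1 c.cont 0 (min δ ε) (by positivity)
    refine ⟨min (ρ / 2) (s' / 4), by positivity, ?_, fun t ht => hb t ?_⟩
    · have := min_le_right (ρ / 2) (s' / 4)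
      linarith
    · rw [Real.dist_eq, sub_zero, abs_of_nonneg ht.1]
      have := ht.2.trans (min_le_left _ _)
      linarith
  have hτ1 : τ ≤ 1 := by linarith
  obtain ⟨φ, hφ, hφn⟩ := hE (J τ) (J 0) ((hτ τ ⟨hτ0.le, le_refl τ⟩).trans_le (min_le_left _ _))
  have hτε : ∀ t ∈ Icc 0 τ, dist (J t) (J 0) < ε := fun t ht =>
    (hτ t ht).trans_le (min_le_right _ _)
  -- Claim 1
  have claim1 : ∀ h : X ≃ₜ X, Near ε h → h (J 0) ∈ P ∪ Q → ∀ r ∈ Icc 0 τ,
      h (φ (J r)) ∈ P ∪ Q := by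
    intro h hn hPQ r hr
    by_contra hno
    rw [mem_union, not_or] at hno
    obtain ⟨r', hr', hp⟩ := c.sub _ hno.1 hno.2
    have a1 := hn (φ (J r))
    have a2 := hφn (J r)
    have a3 := hτε r hr
    have a4 : dist (J r') (J 0) < 3 * ε := by
      rw [hp]
      have b1 := dist_triangle (h (φ (J r))) (φ (J r)) (J 0)
      have b2 := dist_triangle (φ (J r)) (J r) (J 0)
      linarith
    have hr's : r' < s' / 2 := h2' r' hr' (by linarith)
    obtain ⟨g, hg, hgn⟩ := hE₀ (J 0) (J r') (by rw [dist_comm]; linarith)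
    obtain ⟨σp, hσp, hpend, hpimg⟩ := germ eff c m h0 hs' hs's hs1 hJC (r := r')
      ⟨hr'.1, by linarith⟩ (c.map g) hg (t₁ := 1) ⟨zero_le_one, le_refl 1⟩
      (h1' _ (by have := hgn (J 1); linarith))
    have hψ0 : (φ.trans h).symm (g (J 0)) = J r := by
      rw [hg, hp]
      simp
    have hψn : Near (ε + ε) (φ.trans h).symm := (hφn.trans hn).symm
    obtain ⟨σq, hσq, -, hqimg⟩ := germ eff c m h0 hs' hs's hs1 hJC (r := r)
      ⟨hr.1, by have := hr.2; linarith⟩ ((c.map g).map (φ.trans h).symm) hψ0 (t₁ := 1)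
      ⟨zero_le_one, le_refl 1⟩ (h1' _ (by
        have b1 := hgn (J 1)
        have b2 := hψn (g (J 1))
        have b3 := dist_triangle ((φ.trans h).symm (g (J 1))) (g (J 1)) (J 1)
        linarith))
    have hmem : J τ ∈ J '' Icc r s' := ⟨τ, ⟨hr.2, by linarith⟩, rfl⟩
    rw [← hqimg] at hmem
    obtain ⟨t, ht, htτ⟩ := hmem
    have htg : g (J t) = h (J 0) := by
      have : (φ.trans h) ((φ.trans h).symm (g (J t))) = (φ.trans h) (J τ) := by rw [← htτ]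
      rw [Homeomorph.apply_symm_apply] at this
      rw [this]
      show h (φ (J τ)) = h (J 0)
      rw [hφ]
    have htI : t ∈ Icc (0 : ℝ) 1 := ⟨ht.1, ht.2.trans hσq.2⟩
    have hts : t < s' / 2 := h2' t htI (by
      have b1 := hgn (J t)
      have b2 := hn (J 0)
      have b3 := dist_triangle (J t) (g (J t)) (J 0)
      rw [dist_comm (J t) (g (J t)), htg] at b3
      rw [htg] at b1
      linarith)
    have hσps : s' / 2 < σp := h3' σp ⟨hσp.1.le, hσp.2⟩ (by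
      have b1 := hgn (J σp)
      have b2 : g (J σp) = J s' := hpend
      rw [b2, dist_comm] at b1
      linarith)
    have hmem2 : g (J t) ∈ J '' Icc r' s' := by
      rw [← hpimg]
      exact ⟨t, ⟨ht.1, by linarith⟩, rfl⟩
    obtain ⟨v, hv, hvt⟩ := hmem2
    apply hT v ⟨hr'.1.trans hv.1, hv.2.trans hs's.le⟩
    rw [hvt, htg]
    exact hPQ
  -- Claim 2
  have claim2 : ∀ A B : Set X, IsOpen A → IsOpen B → Disjoint A B → P ∪ Q = A ∪ B →
      J 0 ∈ closure A → ∀ r ∈ Icc 0 τ, φ (J r) ∉ B := by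
    intro A B hA hB hAB hU hcl r hr hrB
    obtain ⟨η, hη, hball⟩ := Metric.isOpen_iff.1 hB _ hrB
    obtain ⟨δ₂, hδ₂, hE₂⟩ := eff (min η ε) (by positivity)
    obtain ⟨q, hq1, hq2⟩ := mem_closure_iff.1 hcl (ball (J 0) δ₂) isOpen_ball (mem_ball_self hδ₂)
    obtain ⟨h, hq, hn⟩ := hE₂ (J 0) q (by rw [dist_comm]; exact hq1)
    have hsub : (fun u => h (φ (J u))) '' Icc 0 τ ⊆ A ∪ B := by
      rintro _ ⟨u, hu, rfl⟩
      rw [← hU]
      exact claim1 h (hn.mono (min_le_right _ _)) (by rw [hU, hq]; exact Or.inl hq2) u hu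
    have hcont : Continuous fun u => h (φ (J u)) := h.continuous.comp (φ.continuous.comp c.cont)
    have hpre : IsPreconnected ((fun u => h (φ (J u))) '' Icc 0 τ) :=
      isPreconnected_Icc.image _ hcont.continuousOn
    obtain ⟨x, -, hx1, hx2⟩ := hpre A B hA hB hsub
      ⟨_, ⟨τ, ⟨hτ0.le, le_refl τ⟩, rfl⟩, by simp only [hφ, hq]; exact hq2⟩
      ⟨_, ⟨r, hr, rfl⟩, hball ((hn.mono (min_le_left _ _)) _)⟩
    exact Set.disjoint_left.1 hAB hx1 hx2
  have hγ : ∀ r ∈ Icc 0 τ, φ (J r) ∉ P ∧ φ (J r) ∉ Q := fun r hr =>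
    ⟨claim2 Q P c.openQ c.openP c.disj.symm (Set.union_comm _ _) c.memQ r hr,
      claim2 P Q c.openP c.openQ c.disj rfl c.memP r hr⟩
  -- Claim 3
  obtain ⟨r'', hr'', hp⟩ := c.sub _ (hγ 0 ⟨le_refl 0, hτ0.le⟩).1 (hγ 0 ⟨le_refl 0, hτ0.le⟩).2
  have hr''s : r'' < s' / 2 := h2' r'' hr'' (by
    rw [hp]
    have := hφn (J 0)
    linarith)
  obtain ⟨σ, hσ, hend, himg⟩ := germ eff c m h0 hs' hs's hs1 hJC (r := τ)
    ⟨hτ0.le, by linarith⟩ (c.map φ.symm) (by show φ.symm (J 0) = J τ; rw [← hφ]; simp) (t₁ := 1)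
    ⟨zero_le_one, le_refl 1⟩ (h1' _ (by have := hφn.symm (J 1); linarith))
  have hσs : s' / 2 < σ := h3' σ ⟨hσ.1.le, hσ.2⟩ (by
    have b1 := hφn.symm (J σ)
    have b2 : φ.symm (J σ) = J s' := hend
    rw [b2, dist_comm] at b1
    linarith)
  have hmem : φ.symm (J r'') ∈ J '' Icc τ s' := by
    rw [← himg]
    exact ⟨r'', ⟨hr''.1, by linarith⟩, rfl⟩
  rw [hp, Homeomorph.symm_apply_apply] at hmem
  obtain ⟨v, hv, hv0⟩ := hmem
  have := inj v ⟨hτ0.le.trans hv.1, hv.2.trans hs'1.le⟩ 0 ⟨le_refl 0, zero_le_one⟩ hv0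
  rw [this] at hv
  exact absurd hv.1 (not_le.2 hτ0)

/-- There are no configurations in a compact homogeneous space with a membrane. -/
theorem no_config (hom : ∀ x y : X, ∃ h : X ≃ₜ X, h x = y) (eff : Eff X) {J : ℝ → X}
    {P Q : Set X} (c : Config J P Q) {K C : Set X} {f : X → ℂ} (m : Membrane K C f) : False := by
  have hne : ∃ x ∈ K, x ∉ C := by
    by_contra hno
    push Not at hno
    exact m.not_ext ⟨f, m.cont.mono hno, fun x hx => m.ne x (hno x hx), fun _ _ => rfl⟩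
  obtain ⟨x, hxK, hxC⟩ := hne
  obtain ⟨g, hg⟩ := hom (J 0) x
  exact no_config_aux eff (c.map g) m (by rw [hg]; exact hxK) (by rw [hg]; exact hxC)

end Pool.Agent.H84.ArcSep
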