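import Pool.Agent.H84.ArcSep.Strip

/-!
# Forward germs of separating arcs are unique
-/

set_option autoImplicit false

open Set Metric

namespace Pool.Agent.H84.ArcSep

/-- A connected subset of an arc contains the segment between any two of its points. -/
theorem arc_segment {X : Type*} [TopologicalSpace X] [T2Space X] {J : ℝ → X} (hJ : Continuous J)
    (hi : InjOn J (Icc 0 1)) {B : Set X} (hB : IsPreconnected B) (hBJ : B ⊆ J '' Icc 0 1)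
    {u v : ℝ} (hu : u ∈ Icc (0 : ℝ) 1) (hv : v ∈ Icc (0 : ℝ) 1) (hJu : J u ∈ B) (hJv : J v ∈ B) :
    J '' Icc u v ⊆ B := by
  let e : Icc (0 : ℝ) 1 → X := fun t => J t
  have he : Continuous e := hJ.comp continuous_subtype_val
  have hinj : Function.Injective e := fun a b h => Subtype.ext (hi a.2 b.2 h)
  have hemb := (he.isClosedEmbedding hinj).isInducing
  have himg : e '' (e ⁻¹' B) = B := by
    rw [Set.image_preimage_eq_iff]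
    intro x hx
    obtain ⟨t, ht, rfl⟩ := hBJ hx
    exact ⟨⟨t, ht⟩, rfl⟩
  have hS : IsPreconnected (e ⁻¹' B) := by
    rw [← hemb.isPreconnected_image, himg]
    exact hB
  rintro _ ⟨t, ht, rfl⟩
  have htI : t ∈ Icc (0 : ℝ) 1 := ⟨hu.1.trans ht.1, ht.2.trans hv.2⟩
  exact hS.ordConnected.out (x := ⟨u, hu⟩) hJu (y := ⟨v, hv⟩) hJv (a := ⟨t, htI⟩) ⟨ht.1, ht.2⟩

variable {X : Type*} [MetricSpace X] [CompactSpace X]

/-- **Lemma G.** -/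
theorem germ (eff : Eff X) {J : ℝ → X} {P Q : Set X} (c : Config J P Q) {K C : Set X}
    {f : X → ℂ} (m : Membrane K C f) (h0 : J 0 ∈ K) {s s' : ℝ} (hs' : 0 < s') (hs's : s' < s)
    (hs : s ≤ 1) (hJC : ∀ t ∈ Icc 0 s, J t ∉ C) {r : ℝ} (hr : r ∈ Ico 0 s')
    {J' : ℝ → X} {P' Q' : Set X} (c' : Config J' P' Q') (h0' : J' 0 = J r)
    {t₁ : ℝ} (ht₁ : t₁ ∈ Icc (0 : ℝ) 1) (hout : J' t₁ ∉ J '' Ico 0 s') :
    ∃ σ ∈ Ioc (0 : ℝ) 1, J' σ = J s' ∧ J' '' Icc 0 σ = J '' Icc r s' := by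
  have inj : ∀ a ∈ Icc (0 : ℝ) 1, ∀ b ∈ Icc (0 : ℝ) 1, J a = J b → a = b :=
    fun a ha b hb h => c.inj ha hb h
  have hs'1 : s' ≤ 1 := hs's.le.trans hs
  have hJcl : ∀ a b : ℝ, IsClosed (J '' Icc a b) := fun a b =>
    (isCompact_Icc.image c.cont).isClosed
  have hE : IsClosed (C ∪ J '' Icc s' 1) := m.closedC.union (hJcl _ _)
  set Z : Set ℝ := Icc 0 1 ∩ J' ⁻¹' (C ∪ J '' Icc s' 1) with hZ
  have hZc : IsCompact Z := isCompact_Icc.inter_right (hE.preimage c'.cont)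
  have hZne : Z.Nonempty := by
    by_contra hemp
    rw [Set.not_nonempty_iff_eq_empty] at hemp
    refine hout (follow eff c m h0 hs' hs's hs hJC hr c' h0' (σ := 1) ⟨zero_le_one, le_refl 1⟩
      (fun t ht h => ?_) t₁ ht₁)
    have : t ∈ Z := ⟨ht, h⟩
    rw [hemp] at this
    exact this
  obtain ⟨σ, hσZ, hσmin⟩ := hZc.exists_isLeast hZne
  have hσ01 : σ ∈ Icc (0 : ℝ) 1 := hσZ.1
  have hσne : σ ≠ 0 := by
    rintro rfl
    have h : J' 0 ∈ C ∪ J '' Icc s' 1 := hσZ.2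
    rw [h0'] at h
    rcases h with h | ⟨u, hu, h⟩
    · exact hJC r ⟨hr.1, hr.2.le.trans hs's.le⟩ h
    · have := inj u ⟨hs'.le.trans hu.1, hu.2⟩ r ⟨hr.1, hr.2.le.trans hs'1⟩ h
      exact absurd (this ▸ hu.1 : s' ≤ r) (not_le.2 hr.2)
  have hσ0 : 0 < σ := lt_of_le_of_ne hσ01.1 (Ne.symm hσne)
  have hbelow : ∀ t ∈ Ico 0 σ, J' t ∈ J '' Ico 0 s' := by
    intro t ht
    refine follow eff c m h0 hs' hs's hs hJC hr c' h0' (σ := t) ⟨ht.1, ht.2.le.trans hσ01.2⟩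
      (fun u hu h => ?_) t ⟨ht.1, le_refl t⟩
    have : σ ≤ u := hσmin ⟨⟨hu.1, hu.2.trans (ht.2.le.trans hσ01.2)⟩, h⟩
    exact absurd (this.trans hu.2) (not_le.2 ht.2)
  have hclosed : ∀ t ∈ Icc 0 σ, J' t ∈ J '' Icc 0 s' := by
    have hcl : closure (Ico 0 σ) ⊆ J' ⁻¹' (J '' Icc 0 s') := by
      refine closure_minimal (fun t ht => ?_) ((hJcl _ _).preimage c'.cont)
      obtain ⟨u, hu, h⟩ := hbelow t ht
      exact ⟨u, ⟨hu.1, hu.2.le⟩, h⟩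
    rw [closure_Ico hσ0.ne] at hcl
    exact fun t ht => hcl ht
  have hend : J' σ = J s' := by
    obtain ⟨u, hu, h⟩ := hclosed σ ⟨hσ0.le, le_refl σ⟩
    have hmem : J' σ ∈ C ∪ J '' Icc s' 1 := hσZ.2
    rw [← h] at hmem ⊢
    rcases hmem with h' | ⟨v, hv, h'⟩
    · exact absurd h' (hJC u ⟨hu.1, hu.2.trans hs's.le⟩)
    · have := inj v ⟨hs'.le.trans hv.1, hv.2⟩ u ⟨hu.1, hu.2.trans hs'1⟩ h'
      rw [← this]
      congr 1
      exact le_antisymm (this ▸ hu.2) hv.1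
  have hs'I : s' ∈ Icc (0 : ℝ) 1 := ⟨hs'.le, hs'1⟩
  refine ⟨σ, ⟨hσ0, hσ01.2⟩, hend, Subset.antisymm ?_ ?_⟩
  · rintro _ ⟨t, ht, rfl⟩
    obtain ⟨u, hu, hut⟩ := hclosed t ht
    refine ⟨u, ⟨?_, hu.2⟩, hut⟩
    by_contra hlt
    push Not at hlt
    have hB : IsPreconnected (J' '' Icc t σ) := isPreconnected_Icc.image _ c'.cont.continuousOn
    have hsub : J' '' Icc t σ ⊆ J '' Icc 0 1 := by
      rintro _ ⟨v, hv, rfl⟩
      obtain ⟨w, hw, h⟩ := hclosed v ⟨ht.1.trans hv.1, hv.2⟩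
      exact ⟨w, ⟨hw.1, hw.2.trans hs'1⟩, h⟩
    have hseg := arc_segment c.cont c.inj hB hsub (u := u) (v := s') ⟨hu.1, hu.2.trans hs'1⟩ hs'I
      (by rw [hut]; exact ⟨t, ⟨le_refl t, ht.2⟩, rfl⟩)
      (by rw [← hend]; exact ⟨σ, ⟨ht.2, le_refl σ⟩, rfl⟩)
    obtain ⟨v, hv, hv'⟩ := hseg ⟨r, ⟨hlt.le, hr.2.le⟩, rfl⟩
    rw [← h0'] at hv'
    have := c'.inj ⟨ht.1.trans hv.1, hv.2.trans hσ01.2⟩ ⟨le_refl (0 : ℝ), zero_le_one⟩ hv'
    rw [this] at hv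
    have ht0 : t = 0 := le_antisymm hv.1 ht.1
    rw [ht0, h0'] at hut
    have := inj u ⟨hu.1, hu.2.trans hs'1⟩ r ⟨hr.1, hr.2.le.trans hs'1⟩ hut
    exact absurd hlt (by rw [this]; exact lt_irrefl r)
  · have hB : IsPreconnected (J' '' Icc 0 σ) := isPreconnected_Icc.image _ c'.cont.continuousOn
    have hsub : J' '' Icc 0 σ ⊆ J '' Icc 0 1 := by
      rintro _ ⟨v, hv, rfl⟩
      obtain ⟨w, hw, h⟩ := hclosed v hv
      exact ⟨w, ⟨hw.1, hw.2.trans hs'1⟩, h⟩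
    exact arc_segment c.cont c.inj hB hsub (u := r) (v := s') ⟨hr.1, hr.2.le.trans hs'1⟩ hs'I
      (by rw [← h0']; exact ⟨0, ⟨le_refl 0, hσ0.le⟩, rfl⟩)
      (by rw [← hend]; exact ⟨σ, ⟨hσ0.le, le_refl σ⟩, rfl⟩)

end Pool.Agent.H84.ArcSep
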