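import Pool.Agent.H84.ArcSep.Membrane

/-!
# The key lemma: a membrane through the first point of a separating arc contains the arc
-/

set_option autoImplicit false

open Set Metric

namespace Pool.Agent.H84.ArcSep

variable {X : Type*} [MetricSpace X]

/-- Positive distance between disjoint closed sets, one of them compact. -/
theorem sep {A B : Set X} (hA : IsCompact A) (hB : IsClosed B) (h : Disjoint A B) :
    ∃ ε > 0, ∀ a ∈ A, ∀ b ∈ B, ε ≤ dist a b := by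
  obtain ⟨δ, hδ, hd⟩ := h.exists_thickenings hA hB
  refine ⟨δ, hδ, fun a ha b hb => ?_⟩
  by_contra hlt
  push Not at hlt
  exact Set.disjoint_left.1 hd (mem_thickening_iff.2 ⟨a, ha, by rwa [dist_comm]⟩)
    (self_subset_thickening hδ B hb)

/-- The conclusion of Effros' theorem. -/
def Eff (X : Type*) [MetricSpace X] : Prop :=
  ∀ ε > 0, ∃ δ > 0, ∀ x y : X, dist x y < δ → ∃ h : X ≃ₜ X, h x = y ∧ Near ε h

variable [CompactSpace X]

theorem key_side {J : ℝ → X} {P Q : Set X} (c : Config J P Q) {K C' D₁ D₂ : Set X}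
    (hK : IsClosed K) (hC' : IsClosed C') (hD₁ : IsOpen D₁) (hD₂ : IsOpen D₂)
    (hD : Disjoint D₁ D₂) (hcov : K \ (P ∪ Q) ⊆ D₁ ∪ D₂) (hC'D : C' ⊆ D₂) :
    ∃ ε > 0, ∀ (K₁ : Set X) (f₁ : X → ℂ) (h : X ≃ₜ X), Membrane K₁ C' f₁ → K₁ ⊆ K →
      K₁ ∩ Q ⊆ C' → Near ε h → ∀ z ∈ K₁, h z ∈ Q → h z ∈ D₁ → False := by
  have hA : IsClosed ((D₁ ∪ D₂)ᶜ ∩ Pᶜ) :=
    (hD₁.union hD₂).isClosed_compl.inter c.openP.isClosed_compl
  have hB : IsClosed (C' ∪ (K \ Q)) := hC'.union (hK.sdiff c.openQ)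
  have hAB : Disjoint ((D₁ ∪ D₂)ᶜ ∩ Pᶜ) (C' ∪ (K \ Q)) := by
    rw [Set.disjoint_left]
    rintro x ⟨hx1, hx2⟩ (hx | hx)
    · exact hx1 (Or.inr (hC'D hx))
    · exact hx1 (hcov ⟨hx.1, fun h => h.elim hx2 hx.2⟩)
  obtain ⟨ε₁, hε₁, h1⟩ := sep hA.isCompact hB hAB
  obtain ⟨ε₂, hε₂, h2⟩ := sep hC'.isCompact hD₂.isClosed_compl
    (Set.disjoint_left.2 fun x hx hx' => hx' (hC'D hx))
  refine ⟨min ε₁ ε₂, lt_min hε₁ hε₂, ?_⟩
  intro K₁ f₁ h m hK₁ hQ hn z hz hzQ hzD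
  have mm := m.map h
  have hPQ : ∀ x ∈ P, x ∉ Q := fun x hx hx' => Set.disjoint_left.1 c.disj hx hx'
  have hDD : ∀ x ∈ D₁, x ∉ D₂ := fun x hx hx' => Set.disjoint_left.1 hD hx hx'
  have key := mm.eq_of_cut (K₁ := (h '' K₁) \ (Q ∩ D₁)) (K₂ := (h '' K₁) \ (P ∪ D₂))
    (mm.closedK.sdiff (c.openQ.inter hD₁)) (mm.closedK.sdiff (c.openP.union hD₂)) ?_ ?_
    c.cont c.inj ?_
  · have hmem : h z ∈ h '' K₁ := ⟨z, hz, rfl⟩
    rw [← key] at hmem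
    exact hmem.2 ⟨hzQ, hzD⟩
  · apply Subset.antisymm (union_subset sdiff_subset sdiff_subset)
    intro x hx
    by_cases hx' : x ∈ Q ∩ D₁
    · exact Or.inr ⟨hx, fun h' => h'.elim (fun h' => hPQ x h' hx'.1) (hDD x hx'.2)⟩
    · exact Or.inl ⟨hx, hx'⟩
  · rintro _ ⟨k, hk, rfl⟩
    refine ⟨⟨k, m.sub hk, rfl⟩, fun h' => ?_⟩
    have : h k ∈ D₂ := by
      by_contra hno
      have := h2 k hk (h k) hno
      have h3 := hn k
      rw [dist_comm] at h3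
      exact absurd (h3.trans_le (min_le_right _ _)) (not_lt.2 this)
    exact hDD _ h'.2 this
  · rintro x ⟨⟨⟨k, hk, rfl⟩, hx1⟩, ⟨_, hx2⟩⟩
    rw [mem_union, not_or] at hx2
    have hxD : h k ∈ D₁ := by
      by_contra hno
      have hA' : h k ∈ (D₁ ∪ D₂)ᶜ ∩ Pᶜ := ⟨fun h' => h'.elim hno hx2.2, hx2.1⟩
      have hB' : k ∈ C' ∪ (K \ Q) := by
        by_cases hkQ : k ∈ Q
        · exact Or.inl (hQ ⟨hk, hkQ⟩)
        · exact Or.inr ⟨hK₁ hk, hkQ⟩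
      exact absurd ((hn k).trans_le (min_le_left _ _)) (not_lt.2 (h1 _ hA' _ hB'))
    exact c.sub _ hx2.1 fun h' => hx1 ⟨h', hxD⟩

/-- **Lemma D.** -/
theorem key (eff : Eff X) {J : ℝ → X} {P Q : Set X} (c : Config J P Q) {K C : Set X}
    {f : X → ℂ} (m : Membrane K C f) (h0 : J 0 ∈ K) {s : ℝ} (hs : s ∈ Icc (0 : ℝ) 1)
    (hC : ∀ t ∈ Icc 0 s, J t ∉ C) : ∀ t ∈ Icc 0 s, J t ∈ K \ (P ∪ Q) := by
  classical
  have hT : IsClosed (K \ (P ∪ Q)) := m.closedK.sdiff (c.openP.union c.openQ)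
  have h0T : J 0 ∈ K \ (P ∪ Q) := ⟨h0, fun h => h.elim c.notP c.notQ⟩
  have inj : ∀ a ∈ Icc (0 : ℝ) 1, ∀ b ∈ Icc (0 : ℝ) 1, J a = J b → a = b :=
    fun a ha b hb h => c.inj ha hb h
  -- the open part
  have main : ∀ r ∈ Ioo 0 s, J r ∈ K \ (P ∪ Q) := by
    intro r hr
    by_contra hno
    have hr1 : r ∈ Icc (0 : ℝ) 1 := ⟨hr.1.le, hr.2.le.trans hs.2⟩
    set T := K \ (P ∪ Q) with hTdef
    set C' := C ∪ (K ∩ J '' Icc s 1) with hC'def
    have hJcl : ∀ a b : ℝ, IsClosed (J '' Icc a b) := fun a b =>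
      (isCompact_Icc.image c.cont).isClosed
    have hC'cl : IsClosed C' := m.closedC.union (m.closedK.inter (hJcl s 1))
    have hC'K : C' ⊆ K := union_subset m.sub inter_subset_left
    have hC'J : ∀ t ∈ Ico 0 s, J t ∉ C' := by
      rintro t ht (h | ⟨_, u, hu, h⟩)
      · exact hC t ⟨ht.1, ht.2.le⟩ h
      · have := inj u ⟨hs.1.trans hu.1, hu.2⟩ t ⟨ht.1, ht.2.le.trans hs.2⟩ h
        exact absurd (this ▸ hu.1) (not_le.2 ht.2)
    have hS : Disjoint (T ∩ J '' Icc 0 r) (C' ∪ (T ∩ J '' Icc r 1)) := by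
      rw [Set.disjoint_left]
      rintro x ⟨hxT, t, ht, rfl⟩ (h | ⟨_, u, hu, h⟩)
      · exact hC'J t ⟨ht.1, ht.2.trans_lt hr.2⟩ h
      · have := inj u ⟨hr1.1.trans hu.1, hu.2⟩ t ⟨ht.1, ht.2.trans hr1.2⟩ h
        have h3 : t = r := le_antisymm ht.2 (this ▸ hu.1)
        rw [h3] at hxT
        exact hno hxT
    obtain ⟨D₁, D₂, hD₁, hD₂, hS₁, hS₂, hD⟩ := normal_separation
      (hT.inter (hJcl 0 r)) (hC'cl.union (hT.inter (hJcl r 1))) hS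
    have hcov : T ⊆ D₁ ∪ D₂ := by
      intro x hx
      obtain ⟨t, ht, rfl⟩ := c.sub x (fun h => hx.2 (Or.inl h)) (fun h => hx.2 (Or.inr h))
      rcases le_total t r with h | h
      · exact Or.inl (hS₁ ⟨hx, t, ⟨ht.1, h⟩, rfl⟩)
      · exact Or.inr (hS₂ (Or.inr ⟨hx, t, ⟨h, ht.2⟩, rfl⟩))
    have hC'D : C' ⊆ D₂ := subset_union_left.trans hS₂
    have h0D : J 0 ∈ D₁ := hS₁ ⟨h0T, 0, ⟨le_refl 0, hr.1.le⟩, rfl⟩
    obtain ⟨εQ, hεQ, sideQ⟩ := key_side c m.closedK hC'cl hD₁ hD₂ hD hcov hC'D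
    obtain ⟨εP, hεP, sideP⟩ := key_side c.symm m.closedK hC'cl hD₁ hD₂ hD
      (by rw [Set.union_comm Q P]; exact hcov) hC'D
    obtain ⟨δ, hδ, hE⟩ := eff (min εQ εP) (lt_min hεQ hεP)
    have hs0 : 0 < s := hr.1.trans hr.2
    have h0C' : J 0 ∉ C' := hC'J 0 ⟨le_refl 0, hs0⟩
    obtain ⟨K₁, f₁, m₁, hK₁K, z, hzK, hzU⟩ := m.localize (C' := C')
      (U := ball (J 0) (δ / 2) \ C') hC'cl subset_union_left hC'K
      (isOpen_ball.sdiff hC'cl) disjoint_sdiff_left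
      ⟨J 0, h0, mem_ball_self (by positivity), h0C'⟩
    have hside := m₁.one_sided c hs
      (fun t ht h => Or.inr ⟨hK₁K h, t, ht, rfl⟩) hC'J
    have hzd : dist z (J 0) < δ / 2 := hzU.1
    rcases hside with hP | hQ
    · obtain ⟨q, ⟨hq1, hq2⟩, hq3⟩ := mem_closure_iff.1 c.memP (ball (J 0) (δ / 2) ∩ D₁)
        (isOpen_ball.inter hD₁) ⟨mem_ball_self (by positivity), h0D⟩
      have hd : dist z q < δ := by
        calc dist z q ≤ dist z (J 0) + dist (J 0) q := dist_triangle _ _ _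
          _ < δ / 2 + δ / 2 := by
            rw [mem_ball, dist_comm] at hq1
            exact add_lt_add hzd hq1
          _ = δ := by ring
      obtain ⟨h, hzq, hn⟩ := hE z q hd
      exact sideP K₁ f₁ h m₁ hK₁K hP (hn.mono (min_le_right _ _)) z hzK (hzq ▸ hq3) (hzq ▸ hq2)
    · obtain ⟨q, ⟨hq1, hq2⟩, hq3⟩ := mem_closure_iff.1 c.memQ (ball (J 0) (δ / 2) ∩ D₁)
        (isOpen_ball.inter hD₁) ⟨mem_ball_self (by positivity), h0D⟩
      have hd : dist z q < δ := by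
        calc dist z q ≤ dist z (J 0) + dist (J 0) q := dist_triangle _ _ _
          _ < δ / 2 + δ / 2 := by
            rw [mem_ball, dist_comm] at hq1
            exact add_lt_add hzd hq1
          _ = δ := by ring
      obtain ⟨h, hzq, hn⟩ := hE z q hd
      exact sideQ K₁ f₁ h m₁ hK₁K hQ (hn.mono (min_le_left _ _)) z hzK (hzq ▸ hq3) (hzq ▸ hq2)
  intro t ht
  rcases eq_or_lt_of_le hs.1 with h | h
  · have : t = 0 := le_antisymm (h ▸ ht.2) ht.1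
    rw [this]; exact h0T
  · have hcl : closure (Ioo 0 s) ⊆ J ⁻¹' (K \ (P ∪ Q)) :=
      closure_minimal (fun r hr => main r hr) (hT.preimage c.cont)
    rw [closure_Ioo h.ne] at hcl
    exact hcl ht

end Pool.Agent.H84.ArcSep
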