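import Pool.Agent.H84.ArcSep.Basic

/-!
# Continuous logarithms on closed subsets of arcs
-/

set_option autoImplicit false

open Set Metric

namespace Pool.Agent.H84.ArcSep

/-- Gluing two logarithms along a point. -/
theorem log_glue {D : Set ℝ} (hD : IsClosed D) {v : ℝ → ℂ} {a b : ℝ}
    (h1 : ∃ φ : ℝ → ℂ, ContinuousOn φ (D ∩ Iic a) ∧ ∀ x ∈ D ∩ Iic a, Complex.exp (φ x) = v x)
    (h2 : ∃ φ : ℝ → ℂ, ContinuousOn φ (D ∩ Icc a b) ∧ ∀ x ∈ D ∩ Icc a b, Complex.exp (φ x) = v x) :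
    ∃ φ : ℝ → ℂ, ContinuousOn φ (D ∩ Iic b) ∧ ∀ x ∈ D ∩ Iic b, Complex.exp (φ x) = v x := by
  classical
  rcases lt_or_ge b a with hba | hab
  · obtain ⟨φ, h, h'⟩ := h1
    have : D ∩ Iic b ⊆ D ∩ Iic a := fun x hx => ⟨hx.1, le_trans hx.2 hba.le⟩
    exact ⟨φ, h.mono this, fun x hx => h' x (this hx)⟩
  obtain ⟨φ, hφ, hφ'⟩ := h1
  obtain ⟨ψ, hψ, hψ'⟩ := h2
  -- constant to match at `a`
  obtain ⟨c, hc, hc'⟩ : ∃ c : ℂ, Complex.exp c = 1 ∧ (a ∈ D → ψ a + c = φ a) := by
    by_cases ha : a ∈ D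
    · refine ⟨φ a - ψ a, ?_, fun _ => by ring⟩
      rw [Complex.exp_sub, hφ' a ⟨ha, le_refl a⟩, hψ' a ⟨ha, le_refl a, hab⟩, div_self]
      rw [← hφ' a ⟨ha, le_refl a⟩]
      exact Complex.exp_ne_zero _
    · exact ⟨0, by simp, fun h => absurd h ha⟩
  let χ : ℝ → ℂ := fun x => if x ≤ a then φ x else ψ x + c
  have e1 : ∀ x ∈ D ∩ Iic a, χ x = φ x := fun x hx => by
    simp only [χ, if_pos (show x ≤ a from hx.2)]
  have e2 : ∀ x ∈ D ∩ Icc a b, χ x = ψ x + c := fun x hx => by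
    rcases eq_or_lt_of_le hx.2.1 with h | h
    · subst h
      simp only [χ, le_refl, if_true]
      exact (hc' hx.1).symm
    · simp only [χ, if_neg (not_le.2 h)]
  have hU : D ∩ Iic b = (D ∩ Iic a) ∪ (D ∩ Icc a b) := by
    ext x
    simp only [mem_inter_iff, mem_Iic, mem_union, mem_Icc]
    constructor
    · rintro ⟨h, h'⟩
      rcases le_total x a with h'' | h''
      · exact Or.inl ⟨h, h''⟩
      · exact Or.inr ⟨h, h'', h'⟩
    · rintro (⟨h, h'⟩ | ⟨h, _, h'⟩)
      · exact ⟨h, h'.trans hab⟩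
      · exact ⟨h, h'⟩
  refine ⟨χ, ?_, ?_⟩
  · rw [hU]
    apply ContinuousOn.union_of_isClosed
    · exact hφ.congr e1
    · exact (hψ.add continuousOn_const).congr e2
    · exact hD.inter isClosed_Iic
    · exact hD.inter isClosed_Icc
  · intro x hx
    rw [hU] at hx
    rcases hx with hx | hx
    · rw [e1 x hx, hφ' x hx]
    · rw [e2 x hx, Complex.exp_add, hc, mul_one, hψ' x hx]

/-- A nonvanishing continuous function on a compact set of reals has a continuous logarithm. -/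
theorem exists_log_real {D : Set ℝ} (hD : IsCompact D) {v : ℝ → ℂ} (hv : ContinuousOn v D)
    (h0 : ∀ x ∈ D, v x ≠ 0) :
    ∃ φ : ℝ → ℂ, ContinuousOn φ D ∧ ∀ x ∈ D, Complex.exp (φ x) = v x := by
  classical
  rcases D.eq_empty_or_nonempty with rfl | hne
  · exact ⟨fun _ => 0, continuousOn_empty _, fun x hx => absurd hx (notMem_empty x)⟩
  -- lower bound for |v|
  obtain ⟨m, hm, hmv⟩ : ∃ m > 0, ∀ x ∈ D, m ≤ ‖v x‖ := by
    obtain ⟨x0, hx0, hmin⟩ := hD.exists_isMinOn hne hv.norm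
    exact ⟨‖v x0‖, norm_pos_iff.2 (h0 x0 hx0), fun x hx => hmin hx⟩
  have huc : UniformContinuousOn v D := hD.uniformContinuousOn_of_continuous hv
  rw [Metric.uniformContinuousOn_iff] at huc
  obtain ⟨δ, hδ, hδv⟩ := huc m hm
  obtain ⟨lo, hlo⟩ := hD.bddBelow
  obtain ⟨up, hup⟩ := hD.bddAbove
  -- short pieces
  have piece : ∀ a : ℝ, ∃ φ : ℝ → ℂ, ContinuousOn φ (D ∩ Icc a (a + δ / 2)) ∧
      ∀ x ∈ D ∩ Icc a (a + δ / 2), Complex.exp (φ x) = v x := by
    intro a
    rcases (D ∩ Icc a (a + δ / 2)).eq_empty_or_nonempty with h | ⟨y, hy⟩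
    · rw [h]
      exact ⟨fun _ => 0, continuousOn_empty _, fun x hx => absurd hx (notMem_empty x)⟩
    · have hsl : ∀ x ∈ D ∩ Icc a (a + δ / 2), v x / v y ∈ Complex.slitPlane := by
        intro x hx
        have hd : dist x y < δ := by
          rw [Real.dist_eq, abs_lt]
          have h1 := hx.2.1
          have h2 := hx.2.2
          have h3 := hy.2.1
          have h4 := hy.2.2
          constructor <;> linarith
        have h1 : dist (v x) (v y) < m := hδv x hx.1 y hy.1 hd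
        have hy0 := h0 y hy.1
        have h2 : ‖v x / v y - 1‖ < 1 := by
          have : v x / v y - 1 = (v x - v y) / v y := by field_simp
          rw [this, norm_div, div_lt_one (norm_pos_iff.2 hy0), ← dist_eq_norm]
          exact h1.trans_le (hmv y hy.1)
        apply Or.inl
        have h3 := Complex.abs_re_le_norm (v x / v y - 1)
        have h4 : |(v x / v y - 1).re| < 1 := h3.trans_lt h2
        rw [abs_lt] at h4
        simp only [Complex.sub_re, Complex.one_re] at h4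
        linarith [h4.1]
      refine ⟨fun x => Complex.log (v x / v y) + Complex.log (v y), ?_, ?_⟩
      · refine ContinuousOn.add ?_ continuousOn_const
        refine ContinuousOn.clog ?_ hsl
        exact (hv.mono inter_subset_left).div_const _
      · intro x hx
        have hy0 := h0 y hy.1
        rw [Complex.exp_add, Complex.exp_log (Complex.slitPlane_ne_zero (hsl x hx)),
          Complex.exp_log hy0]
        field_simp
  -- induction
  have main : ∀ n : ℕ, ∃ φ : ℝ → ℂ, ContinuousOn φ (D ∩ Iic (lo + n * (δ / 2))) ∧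
      ∀ x ∈ D ∩ Iic (lo + n * (δ / 2)), Complex.exp (φ x) = v x := by
    intro n
    induction n with
    | zero =>
      have hsub : D ∩ Iic (lo + (0 : ℕ) * (δ / 2)) ⊆ D ∩ Icc lo (lo + δ / 2) := by
        rintro x ⟨hx, hx'⟩
        simp only [Nat.cast_zero, zero_mul, add_zero, mem_Iic] at hx'
        exact ⟨hx, hlo hx, by linarith⟩
      obtain ⟨φ, h1, h2⟩ := piece lo
      exact ⟨φ, h1.mono hsub, fun x hx => h2 x (hsub hx)⟩
    | succ n ih =>
      have := log_glue hD.isClosed ih (piece (lo + n * (δ / 2)))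
      have e : lo + (n : ℝ) * (δ / 2) + δ / 2 = lo + ((n + 1 : ℕ) : ℝ) * (δ / 2) := by
        push_cast; ring
      rwa [e] at this
  obtain ⟨n, hn⟩ := exists_nat_ge ((up - lo) / (δ / 2))
  obtain ⟨φ, h1, h2⟩ := main n
  have hsub : D ⊆ D ∩ Iic (lo + n * (δ / 2)) := by
    intro x hx
    refine ⟨hx, ?_⟩
    have h3 : x ≤ up := hup hx
    have h4 : up - lo ≤ n * (δ / 2) := by
      rwa [div_le_iff₀ (by positivity)] at hn
    simp only [mem_Iic]
    linarith
  exact ⟨φ, h1.mono hsub, fun x hx => h2 x (hsub hx)⟩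

/-- A nonvanishing continuous function on a closed subset of an arc has a continuous logarithm. -/
theorem exists_log {X : Type*} [MetricSpace X] {D : Set X} (hD : IsClosed D) {J : ℝ → X}
    (hJ : Continuous J) (hi : InjOn J (Icc 0 1)) (hDJ : D ⊆ J '' Icc 0 1) {u : X → ℂ}
    (hu : ContinuousOn u D) (h0 : ∀ x ∈ D, u x ≠ 0) :
    ∃ φ : X → ℂ, ContinuousOn φ D ∧ ∀ x ∈ D, Complex.exp (φ x) = u x := by
  classical
  let D' : Set ℝ := Icc 0 1 ∩ J ⁻¹' D
  have hD' : IsCompact D' := isCompact_Icc.inter_right (hD.preimage hJ)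
  obtain ⟨φ, hφ, hφ'⟩ := exists_log_real hD' (v := fun t => u (J t))
    (hu.comp hJ.continuousOn fun t ht => ht.2) (fun t ht => h0 _ ht.2)
  -- inverse of J on D
  have hex : ∀ x ∈ D, ∃ t ∈ Icc (0 : ℝ) 1, J t = x := fun x hx => hDJ hx
  choose! k hk hkJ using hex
  refine ⟨fun x => φ (k x), ?_, ?_⟩
  · have hkc : ContinuousOn k D := by
      rw [continuousOn_iff_isClosed]
      intro t ht
      refine ⟨J '' (D' ∩ t), ((hD'.inter_right ht).image hJ).isClosed, ?_⟩
      ext x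
      simp only [mem_inter_iff, mem_preimage, mem_image]
      constructor
      · rintro ⟨h1, h2⟩
        exact ⟨⟨k x, ⟨⟨hk x h2, by simpa [hkJ x h2] using h2⟩, h1⟩, hkJ x h2⟩, h2⟩
      · rintro ⟨⟨s, ⟨⟨hs1, hs2⟩, hs3⟩, rfl⟩, h2⟩
        refine ⟨?_, h2⟩
        have : k (J s) = s := hi (hk _ h2) hs1 (hkJ _ h2)
        rwa [this]
    refine hφ.comp hkc ?_
    intro x hx
    exact ⟨hk x hx, by simpa [hkJ x hx] using hx⟩
  · intro x hx
    have := hφ' (k x) ⟨hk x hx, by simpa [hkJ x hx] using hx⟩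
    simpa [hkJ x hx] using this

end Pool.Agent.H84.ArcSep
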