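import Pool.Agent.H84.ArcSep.Log

/-!
# Membranes: existence, localisation, non-separation by arcs
-/

set_option autoImplicit false

open Set Metric

namespace Pool.Agent.H84.ArcSep

variable {X : Type*} [MetricSpace X]

/-- Tietze extension of a complex function from a closed set. -/
theorem tietze {E : Set X} (hE : IsClosed E) {φ : X → ℂ} (hφ : ContinuousOn φ E) :
    ∃ Φ : X → ℂ, Continuous Φ ∧ ∀ x ∈ E, Φ x = φ x := by
  obtain ⟨g, hg⟩ := ContinuousMap.exists_restrict_eq hE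
    (⟨fun x : E => φ x, continuousOn_iff_continuous_domRestrict.1 hφ⟩ : C(E, ℂ))
  exact ⟨g, g.continuous, fun x hx => congrArg (fun k : C(E, ℂ) => k ⟨x, hx⟩) hg⟩

/-- Gluing two nonvanishing functions whose quotient has a logarithm. -/
theorem glue {K₁ K₂ : Set X} (h1 : IsClosed K₁) (h2 : IsClosed K₂) {F₁ F₂ φ : X → ℂ}
    (hF₁ : ContinuousOn F₁ K₁) (hF₂ : ContinuousOn F₂ K₂) (n1 : ∀ x ∈ K₁, F₁ x ≠ 0)
    (n2 : ∀ x ∈ K₂, F₂ x ≠ 0) (hφ : ContinuousOn φ (K₁ ∩ K₂))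
    (hexp : ∀ x ∈ K₁ ∩ K₂, F₁ x = F₂ x * Complex.exp (φ x)) :
    ∃ F : X → ℂ, ContinuousOn F (K₁ ∪ K₂) ∧ (∀ x ∈ K₁ ∪ K₂, F x ≠ 0) ∧ ∀ x ∈ K₁, F x = F₁ x := by
  classical
  obtain ⟨Φ, hΦ, hΦφ⟩ := tietze (h1.inter h2) hφ
  let F : X → ℂ := fun x => if x ∈ K₁ then F₁ x else F₂ x * Complex.exp (Φ x)
  have e1 : ∀ x ∈ K₁, F x = F₁ x := fun x hx => by simp only [F, if_pos hx]
  have e2 : ∀ x ∈ K₂, F x = F₂ x * Complex.exp (Φ x) := fun x hx => by
    by_cases h : x ∈ K₁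
    · rw [e1 x h, hexp x ⟨h, hx⟩, hΦφ x ⟨h, hx⟩]
    · simp only [F, if_neg h]
  refine ⟨F, ?_, ?_, e1⟩
  · apply ContinuousOn.union_of_isClosed _ _ h1 h2
    · exact hF₁.congr e1
    · exact (hF₂.mul (Complex.continuous_exp.comp hΦ).continuousOn).congr e2
  · rintro x (hx | hx)
    · rw [e1 x hx]; exact n1 x hx
    · rw [e2 x hx]; exact mul_ne_zero (n2 x hx) (Complex.exp_ne_zero _)

/-- **Lemma A.** A membrane is not cut off by a subset of an arc away from its boundary. -/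
theorem Membrane.eq_of_cut {K C : Set X} {f : X → ℂ} (m : Membrane K C f) {K₁ K₂ : Set X}
    (h1 : IsClosed K₁) (h2 : IsClosed K₂) (hK : K₁ ∪ K₂ = K) (hC1 : C ⊆ K₁)
    {J : ℝ → X} (hJ : Continuous J) (hi : InjOn J (Icc 0 1))
    (hint : K₁ ∩ K₂ ⊆ J '' Icc 0 1) : K₁ = K := by
  by_contra hne
  have hsub : K₁ ⊆ K := hK ▸ subset_union_left
  obtain ⟨F₁, hF₁, n1, hf⟩ := m.min K₁ h1 hC1 hsub hne
  obtain ⟨φ, hφ, hφe⟩ := exists_log (h1.inter h2) hJ hi hint (hF₁.mono inter_subset_left)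
    (fun x hx => n1 x hx.1)
  obtain ⟨F, hF, hn, hFF⟩ := glue h1 h2 hF₁ (F₂ := fun _ => 1) continuousOn_const n1
    (fun _ _ => one_ne_zero) hφ (fun x hx => by rw [one_mul, hφe x hx])
  rw [hK] at hF hn
  exact m.not_ext ⟨F, hF, hn, fun x hx => by rw [hFF x (hC1 hx), hf x hx]⟩

/-- **Lemma B.** A membrane whose boundary contains its part on the end of the arc is one-sided. -/
theorem Membrane.one_sided {K C : Set X} {f : X → ℂ} (m : Membrane K C f) {J : ℝ → X}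
    {P Q : Set X} (c : Config J P Q) {s : ℝ} (hs : s ∈ Icc (0 : ℝ) 1)
    (h1 : ∀ t ∈ Icc s 1, J t ∈ K → J t ∈ C) (h2 : ∀ t ∈ Ico 0 s, J t ∉ C) :
    K ∩ P ⊆ C ∨ K ∩ Q ⊆ C := by
  classical
  by_contra hcon
  rw [not_or] at hcon
  obtain ⟨hP, hQ⟩ := hcon
  rw [Set.not_subset] at hP hQ
  obtain ⟨p, ⟨hpK, hpP⟩, hpC⟩ := hP
  obtain ⟨q, ⟨hqK, hqQ⟩, hqC⟩ := hQ
  have hPQ : ∀ x ∈ P, x ∉ Q := fun x hx hx' => Set.disjoint_left.1 c.disj hx hx'
  set K₁ : Set X := C ∪ (K \ Q) with hK₁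
  set K₂ : Set X := C ∪ (K \ P) with hK₂
  have hc1 : IsClosed K₁ := m.closedC.union (m.closedK.sdiff c.openQ)
  have hc2 : IsClosed K₂ := m.closedC.union (m.closedK.sdiff c.openP)
  have hs1 : K₁ ⊆ K := union_subset m.sub sdiff_subset
  have hs2 : K₂ ⊆ K := union_subset m.sub sdiff_subset
  have hne1 : K₁ ≠ K := by
    intro h
    have : q ∈ K₁ := h ▸ hqK
    rcases this with h | h
    · exact hqC h
    · exact h.2 hqQ
  have hne2 : K₂ ≠ K := by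
    intro h
    have : p ∈ K₂ := h ▸ hpK
    rcases this with h | h
    · exact hpC h
    · exact h.2 hpP
  have hU : K₁ ∪ K₂ = K := by
    apply Subset.antisymm (union_subset hs1 hs2)
    intro x hx
    by_cases h : x ∈ Q
    · exact Or.inr (Or.inr ⟨hx, fun h' => hPQ x h' h⟩)
    · exact Or.inl (Or.inr ⟨hx, h⟩)
  obtain ⟨F₁, hF₁, n1, hf1⟩ := m.min K₁ hc1 subset_union_left hs1 hne1
  obtain ⟨F₂, hF₂, n2, hf2⟩ := m.min K₂ hc2 subset_union_left hs2 hne2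
  -- the part of the intersection on the initial arc
  have hJc : IsClosed (J '' Icc 0 s) := (isCompact_Icc.image c.cont).isClosed
  set E : Set X := (K \ (P ∪ Q)) ∩ J '' Icc 0 s with hE
  have hEc : IsClosed E := (m.closedK.sdiff (c.openP.union c.openQ)).inter hJc
  have hinter : K₁ ∩ K₂ = C ∪ E := by
    ext x
    constructor
    · rintro ⟨h | h, h' | h'⟩
      · exact Or.inl h
      · exact Or.inl h
      · exact Or.inl h'
      · obtain ⟨t, ht, rfl⟩ := c.sub x h'.2 h.2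
        rcases le_total t s with hts | hts
        · exact Or.inr ⟨⟨h.1, fun h'' => h''.elim h'.2 h.2⟩, ⟨t, ⟨ht.1, hts⟩, rfl⟩⟩
        · exact Or.inl (h1 t ⟨hts, ht.2⟩ h.1)
    · rintro (h | h)
      · exact ⟨Or.inl h, Or.inl h⟩
      · exact ⟨Or.inr ⟨h.1.1, fun h' => h.1.2 (Or.inr h')⟩,
          Or.inr ⟨h.1.1, fun h' => h.1.2 (Or.inl h')⟩⟩
  have hE1 : E ⊆ K₁ := fun x h => (hinter ▸ (Or.inr h : x ∈ C ∪ E) : x ∈ K₁ ∩ K₂).1
  have hE2 : E ⊆ K₂ := fun x h => (hinter ▸ (Or.inr h : x ∈ C ∪ E) : x ∈ K₁ ∩ K₂).2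
  have hEC : ∀ x ∈ E, x ∈ C → x = J s := by
    rintro x ⟨_, t, ht, rfl⟩ hx
    rcases eq_or_lt_of_le ht.2 with h | h
    · rw [h]
    · exact absurd hx (h2 t ⟨ht.1, h⟩)
  obtain ⟨φ, hφ, hφe⟩ := exists_log (u := fun x => F₁ x / F₂ x) hEc c.cont c.inj
    (fun x hx => by
      obtain ⟨t, ht, h⟩ := hx.2
      exact ⟨t, ⟨ht.1, ht.2.trans hs.2⟩, h⟩)
    ((hF₁.mono hE1).div (hF₂.mono hE2) (fun x hx => n2 x (hE2 hx)))
    (fun x hx => div_ne_zero (n1 x (hE1 hx)) (n2 x (hE2 hx)))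
  -- normalise at `J s`
  obtain ⟨a, ha, ha'⟩ : ∃ a : ℂ, Complex.exp a = 1 ∧ (J s ∈ E → J s ∈ C → φ (J s) = a) := by
    by_cases h : J s ∈ E ∧ J s ∈ C
    · refine ⟨φ (J s), ?_, fun _ _ => rfl⟩
      rw [hφe _ h.1, hf1 _ h.2, hf2 _ h.2, div_self (m.ne _ h.2)]
    · exact ⟨0, by simp, fun h1 h2 => absurd ⟨h1, h2⟩ h⟩
  let ψ : X → ℂ := fun x => if x ∈ C then 0 else φ x - a
  have eC : ∀ x ∈ C, ψ x = 0 := fun x hx => by simp only [ψ, if_pos hx]
  have eE : ∀ x ∈ E, ψ x = φ x - a := fun x hx => by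
    by_cases h : x ∈ C
    · have hxs := hEC x hx h
      subst hxs
      rw [eC _ h, ha' hx h, sub_self]
    · simp only [ψ, if_neg h]
  have hψ : ContinuousOn ψ (K₁ ∩ K₂) := by
    rw [hinter]
    apply ContinuousOn.union_of_isClosed _ _ m.closedC hEc
    · exact continuousOn_const.congr eC
    · exact (hφ.sub continuousOn_const).congr eE
  obtain ⟨F, hF, hn, hFF⟩ := glue hc1 hc2 hF₁ hF₂ n1 n2 hψ (fun x hx => by
    rw [hinter] at hx
    rcases hx with hx | hx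
    · rw [eC x hx, Complex.exp_zero, mul_one, hf1 x hx, hf2 x hx]
    · rw [eE x hx, Complex.exp_sub, ha, div_one, hφe x hx]
      have := n2 x (hE2 hx)
      field_simp)
  rw [hU] at hF hn
  exact m.not_ext ⟨F, hF, hn, fun x hx => by rw [hFF x (Or.inl hx), hf1 x hx]⟩

variable [CompactSpace X]

/-- Existence of membranes. -/
theorem exists_membrane {K₀ C : Set X} {f : X → ℂ} (hK₀ : IsClosed K₀) (hC : IsClosed C)
    (hsub : C ⊆ K₀) (hf : ContinuousOn f C) (hne : ∀ x ∈ C, f x ≠ 0) (hext : ¬ Ext C K₀ f) :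
    ∃ K ⊆ K₀, Membrane K C f := by
  classical
  let S : Set (Set X) := {K | IsClosed K ∧ C ⊆ K ∧ ¬ Ext C K f}
  obtain ⟨K, hKK₀, hmin⟩ := zorn_superset_nonempty S (by
    intro c hcS hchain hcne
    refine ⟨⋂₀ c, ⟨isClosed_sInter fun K hK => (hcS hK).1, subset_sInter fun K hK => (hcS hK).2.1,
      ?_⟩, fun K hK => sInter_subset_of_mem hK⟩
    rintro ⟨F, hF, hn, hFf⟩
    have hcl : IsClosed (⋂₀ c) := isClosed_sInter fun K hK => (hcS hK).1
    obtain ⟨G, hG, hGF⟩ := tietze hcl hF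
    have hne' : Nonempty c := hcne.to_subtype
    obtain ⟨⟨K, hKc⟩, hK⟩ := exists_subset_nhds_of_isCompact' (V := fun K : c => (K : Set X))
      (by
        rintro ⟨A, hA⟩ ⟨B, hB⟩
        rcases hchain.total hA hB with h | h
        · exact ⟨⟨A, hA⟩, subset_rfl, h⟩
        · exact ⟨⟨B, hB⟩, h, subset_rfl⟩)
      (fun K => (hcS K.2).1.isCompact) (fun K => (hcS K.2).1) (U := {x | G x ≠ 0}) (by
        intro x hx
        rw [← sInter_eq_iInter] at hx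
        apply (isOpen_ne.preimage hG).mem_nhds
        show G x ≠ 0
        rw [hGF x hx]
        exact hn x hx)
    apply (hcS hKc).2.2
    refine ⟨G, hG.continuousOn, fun x hx => hK hx, fun x hx => ?_⟩
    have hxc : x ∈ ⋂₀ c := mem_sInter.2 fun K' hK' => (hcS hK').2.1 hx
    rw [hGF x hxc, hFf x hx]) K₀ ⟨hK₀, hsub, hext⟩
  refine ⟨K, hKK₀, hmin.prop.1, hC, hmin.prop.2.1, hf, hne, hmin.prop.2.2, ?_⟩
  intro K' hK' hCK' hK'K hneq
  by_contra hno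
  exact hneq (Subset.antisymm hK'K (hmin.le_of_le ⟨hK', hCK', hno⟩ hK'K))

/-- **Lemma C.** Localisation of a membrane near a point. -/
theorem Membrane.localize {K C : Set X} {f : X → ℂ} (m : Membrane K C f) {C' U : Set X}
    (hC' : IsClosed C') (hCC' : C ⊆ C') (hC'K : C' ⊆ K) (hU : IsOpen U) (hUC : Disjoint U C')
    (hUK : (K ∩ U).Nonempty) :
    ∃ (K' : Set X) (f' : X → ℂ), Membrane K' C' f' ∧ K' ⊆ K ∧ (K' ∩ U).Nonempty := by
  have hCU : C' ⊆ K \ U := fun x hx => ⟨hC'K hx, fun h => Set.disjoint_left.1 hUC h hx⟩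
  obtain ⟨g, hg, hgn, hgf⟩ := m.min (K \ U) (m.closedK.sdiff hU) (hCC'.trans hCU) sdiff_subset (by
    intro h
    obtain ⟨x, hx, hx'⟩ := hUK
    rw [← h] at hx
    exact hx.2 hx')
  have hnoext : ¬ Ext C' K g := by
    rintro ⟨F, hF, hn, hFg⟩
    exact m.not_ext ⟨F, hF, hn, fun x hx => by rw [hFg x (hCC' hx), hgf x hx]⟩
  obtain ⟨K', hK'K, hm⟩ := exists_membrane m.closedK hC' hC'K (hg.mono hCU)
    (fun x hx => hgn x (hCU hx)) hnoext
  refine ⟨K', g, hm, hK'K, ?_⟩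
  by_contra hemp
  rw [Set.not_nonempty_iff_eq_empty] at hemp
  have hsub : K' ⊆ K \ U := fun x hx => ⟨hK'K hx, fun h => by
    have : x ∈ K' ∩ U := ⟨hx, h⟩
    rw [hemp] at this
    exact this⟩
  exact hm.not_ext ⟨g, hg.mono hsub, fun x hx => hgn x (hsub hx), fun x _ => rfl⟩

end Pool.Agent.H84.ArcSep
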