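import Pool.Agent.H84.ArcSep.Key

/-!
# Strips: thin membranes along a separating arc, and their consequences
-/

set_option autoImplicit false

open Set Metric

namespace Pool.Agent.H84.ArcSep

variable {X : Type*} [MetricSpace X] [CompactSpace X]

/-- The conclusion of the strip lemma. -/
def StripAt (J : ℝ → X) (C : Set X) (s' ε : ℝ) : Prop :=
  ∃ (Φ C₁ : Set X) (f₂ : X → ℂ), Membrane Φ C₁ f₂ ∧ (∃ y ∈ Φ, y ∉ C₁ ∧ dist y (J 0) < ε) ∧
    (∀ x ∈ C₁, ∃ x' ∈ C ∪ J '' Icc s' 1, dist x x' < ε) ∧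
    ∀ x ∈ Φ, x ∉ C₁ → ∃ x' ∈ C ∪ J '' Icc 0 1, dist x x' < ε

theorem strip_side {J : ℝ → X} {P Q : Set X} (c : Config J P Q) {K C : Set X}
    (hK : IsClosed K) (hC : IsClosed C) {s s' ε : ℝ} (hs' : 0 < s') (hs's : s' < s)
    (hs : s ≤ 1) (hJC : ∀ t ∈ Icc 0 s, J t ∉ C) (hε : 0 < ε) :
    ∃ ε₀ > 0, ∀ (K₁ : Set X) (f₁ : X → ℂ) (h : X ≃ₜ X) (z : X),
      Membrane K₁ (C ∪ (K ∩ J '' Icc s 1)) f₁ → K₁ ⊆ K →
      K₁ ∩ Q ⊆ C ∪ (K ∩ J '' Icc s 1) → Near ε₀ h → z ∈ K₁ → h z ∈ Q →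
      dist (h z) (J 0) < ε₀ → StripAt J C s' ε := by
  have inj : ∀ a ∈ Icc (0 : ℝ) 1, ∀ b ∈ Icc (0 : ℝ) 1, J a = J b → a = b :=
    fun a ha b hb h => c.inj ha hb h
  set C' := C ∪ (K ∩ J '' Icc s 1) with hC'def
  have hJcl : ∀ a b : ℝ, IsClosed (J '' Icc a b) := fun a b =>
    (isCompact_Icc.image c.cont).isClosed
  have hC'cl : IsClosed C' := hC.union (hK.inter (hJcl s 1))
  have hC'sub : C' ⊆ C ∪ J '' Icc s' 1 := by
    rintro x (hx | ⟨_, t, ht, rfl⟩)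
    · exact Or.inl hx
    · exact Or.inr ⟨t, ⟨hs's.le.trans ht.1, ht.2⟩, rfl⟩
  have hs'1 : s' ≤ 1 := hs's.le.trans hs
  have hJC' : ∀ t ∈ Icc 0 s', J t ∉ C' := by
    rintro t ht (h | ⟨_, u, hu, h⟩)
    · exact hJC t ⟨ht.1, ht.2.trans hs's.le⟩ h
    · have := inj u ⟨(hs'.trans hs's).le.trans hu.1, hu.2⟩ t ⟨ht.1, ht.2.trans hs'1⟩ h
      exact absurd ((this ▸ hu.1 : s ≤ t).trans ht.2) (not_le.2 hs's)
  -- first constant
  have hA : IsClosed ({x | ∀ x' ∈ C ∪ J '' Icc 0 1, ε ≤ dist x x'} ∩ Pᶜ) := by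
    refine IsClosed.inter ?_ c.openP.isClosed_compl
    simp only [Set.ofPred_forall]
    exact isClosed_biInter fun x' _ => isClosed_le continuous_const (continuous_id.dist continuous_const)
  obtain ⟨ε₁, hε₁, h1⟩ := sep hA.isCompact (hK.sdiff c.openQ) (by
    rw [Set.disjoint_left]
    rintro x ⟨hx1, hx2⟩ ⟨_, hx3⟩
    have := hx1 x (Or.inr (c.sub x hx2 hx3))
    rw [dist_self] at this
    exact absurd hε (not_lt.2 this))
  obtain ⟨ε₂, hε₂, h2⟩ := sep (isCompact_Icc.image c.cont : IsCompact (J '' Icc 0 s')) hC'cl (by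
    rw [Set.disjoint_left]
    rintro _ ⟨t, ht, rfl⟩
    exact hJC' t ht)
  obtain ⟨ε₃, hε₃, h3⟩ := sep (isCompact_singleton (x := J 0)) (hC'cl.union (hJcl s' 1)) (by
    rw [Set.disjoint_left]
    rintro x hx
    rw [mem_singleton_iff] at hx
    subst hx
    rintro (h | ⟨u, hu, h⟩)
    · exact hJC' 0 ⟨le_refl 0, hs'.le⟩ h
    · have := inj u ⟨hs'.le.trans hu.1, hu.2⟩ 0 ⟨le_refl 0, zero_le_one⟩ h
      rw [this] at hu
      exact absurd hu.1 (not_le.2 hs'))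
  refine ⟨min (min ε₁ ε₂) (min (ε₃ / 2) (ε / 2)), by positivity, ?_⟩
  intro K₁ f₁ h z m₁ hK₁ hQ hn hz hzQ hzd
  have n1 : Near ε₁ h := hn.mono ((min_le_left _ _).trans (min_le_left _ _))
  have n2 : Near ε₂ h := hn.mono ((min_le_left _ _).trans (min_le_right _ _))
  have n3 : Near (ε₃ / 2) h := hn.mono ((min_le_right _ _).trans (min_le_left _ _))
  have n4 : Near (ε / 2) h := hn.mono ((min_le_right _ _).trans (min_le_right _ _))
  have d3 : dist (h z) (J 0) < ε₃ / 2 := hzd.trans_le ((min_le_right _ _).trans (min_le_left _ _))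
  have d4 : dist (h z) (J 0) < ε / 2 := hzd.trans_le ((min_le_right _ _).trans (min_le_right _ _))
  have mm := m₁.map h
  set C₁ := (h '' C') ∪ (h '' K₁ ∩ J '' Icc s' 1) with hC₁def
  have hC₁cl : IsClosed C₁ := mm.closedC.union (mm.closedK.inter (hJcl s' 1))
  have hC₁K : C₁ ⊆ h '' K₁ := union_subset mm.sub inter_subset_left
  have hzC₁ : h z ∉ C₁ := by
    rintro (⟨k, hk, hkz⟩ | ⟨_, h'⟩)
    · have hkz' : k = z := h.injective hkz
      subst hkz'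
      have a1 := h3 (J 0) rfl k (Or.inl hk)
      have a2 := n3 k
      have a3 := dist_triangle (J 0) (h k) k
      rw [dist_comm (J 0) (h k)] at a3
      linarith
    · have a1 := h3 (J 0) rfl _ (Or.inr h')
      rw [dist_comm] at a1
      linarith
  obtain ⟨Φ, f₂, m₂, hΦ, y, hyΦ, hyU⟩ := mm.localize (C' := C₁)
    (U := (Q ∩ ball (h z) (ε / 2)) \ C₁) hC₁cl subset_union_left hC₁K
    ((c.openQ.inter isOpen_ball).sdiff hC₁cl) disjoint_sdiff_left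
    ⟨h z, ⟨z, hz, rfl⟩, ⟨hzQ, mem_ball_self (by positivity)⟩, hzC₁⟩
  have hside : Φ ∩ P ⊆ C₁ := by
    rcases m₂.one_sided c (s := s') ⟨hs'.le, hs'1⟩
      (fun t ht h' => Or.inr ⟨hΦ h', t, ht, rfl⟩) (by
        rintro t ht (⟨k, hk, hkt⟩ | ⟨_, u, hu, h'⟩)
        · have a1 := h2 (J t) ⟨t, ⟨ht.1, ht.2.le⟩, rfl⟩ k hk
          have a2 := n2 k
          rw [hkt] at a2
          linarith
        · have := inj u ⟨hs'.le.trans hu.1, hu.2⟩ t ⟨ht.1, ht.2.le.trans hs'1⟩ h'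
          exact absurd (this ▸ hu.1) (not_le.2 ht.2)) with h' | h'
    · exact h'
    · exact absurd (h' ⟨hyΦ, hyU.1.1⟩) hyU.2
  refine ⟨Φ, C₁, f₂, m₂, ⟨y, hyΦ, hyU.2, ?_⟩, ?_, ?_⟩
  · have a1 : dist y (h z) < ε / 2 := hyU.1.2
    have a2 := dist_triangle y (h z) (J 0)
    linarith
  · rintro x (⟨k, hk, rfl⟩ | ⟨_, hx⟩)
    · exact ⟨k, hC'sub hk, (n4 k).trans (by linarith)⟩
    · exact ⟨x, Or.inr hx, by rw [dist_self]; exact hε⟩
  · intro x hx hxC₁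
    by_contra hno
    push Not at hno
    obtain ⟨k, hk, rfl⟩ := hΦ hx
    have hxP : h k ∉ P := fun h' => hxC₁ (hside ⟨hx, h'⟩)
    have hkQ : k ∈ Q := by
      by_contra hkQ
      have a1 := h1 (h k) ⟨hno, hxP⟩ k ⟨hK₁ hk, hkQ⟩
      have a2 := n1 k
      linarith
    exact hxC₁ (Or.inl ⟨k, hQ ⟨hk, hkQ⟩, rfl⟩)

/-- **Lemma E.** -/
theorem strip (eff : Eff X) {J : ℝ → X} {P Q : Set X} (c : Config J P Q) {K C : Set X}
    {f : X → ℂ} (m : Membrane K C f) (h0 : J 0 ∈ K) {s s' ε : ℝ} (hs' : 0 < s') (hs's : s' < s)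
    (hs : s ≤ 1) (hJC : ∀ t ∈ Icc 0 s, J t ∉ C) (hε : 0 < ε) : StripAt J C s' ε := by
  have inj : ∀ a ∈ Icc (0 : ℝ) 1, ∀ b ∈ Icc (0 : ℝ) 1, J a = J b → a = b :=
    fun a ha b hb h => c.inj ha hb h
  have hs0 : 0 < s := hs'.trans hs's
  obtain ⟨εQ, hεQ, sideQ⟩ := strip_side c m.closedK m.closedC hs' hs's hs hJC hε
  obtain ⟨εP, hεP, sideP⟩ := strip_side c.symm m.closedK m.closedC hs' hs's hs hJC hε
  set C' := C ∪ (K ∩ J '' Icc s 1) with hC'def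
  have hJcl : ∀ a b : ℝ, IsClosed (J '' Icc a b) := fun a b =>
    (isCompact_Icc.image c.cont).isClosed
  have hC'cl : IsClosed C' := m.closedC.union (m.closedK.inter (hJcl s 1))
  have hC'K : C' ⊆ K := union_subset m.sub inter_subset_left
  have hC'J : ∀ t ∈ Ico 0 s, J t ∉ C' := by
    rintro t ht (h | ⟨_, u, hu, h⟩)
    · exact hJC t ⟨ht.1, ht.2.le⟩ h
    · have := inj u ⟨hs0.le.trans hu.1, hu.2⟩ t ⟨ht.1, ht.2.le.trans hs⟩ h
      exact absurd (this ▸ hu.1) (not_le.2 ht.2)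
  obtain ⟨δ, hδ, hE⟩ := eff (min εQ εP) (lt_min hεQ hεP)
  have h0C' : J 0 ∉ C' := hC'J 0 ⟨le_refl 0, hs0⟩
  obtain ⟨K₁, f₁, m₁, hK₁K, z, hzK, hzU⟩ := m.localize (C' := C')
    (U := ball (J 0) (δ / 2) \ C') hC'cl subset_union_left hC'K
    (isOpen_ball.sdiff hC'cl) disjoint_sdiff_left
    ⟨J 0, h0, mem_ball_self (by positivity), h0C'⟩
  have hside := m₁.one_sided c (s := s) ⟨hs0.le, hs⟩
    (fun t ht h => Or.inr ⟨hK₁K h, t, ht, rfl⟩) hC'J
  have hzd : dist z (J 0) < δ / 2 := hzU.1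
  rcases hside with hP | hQ
  · obtain ⟨q, hq1, hq2⟩ := mem_closure_iff.1 c.memP (ball (J 0) (min (δ / 2) εP))
      isOpen_ball (mem_ball_self (by positivity))
    have hq1' : dist q (J 0) < min (δ / 2) εP := hq1
    have hd : dist z q < δ := by
      have a1 := dist_triangle z (J 0) q
      rw [dist_comm (J 0) q] at a1
      have a2 := min_le_left (δ / 2) εP
      linarith
    obtain ⟨h, hzq, hn⟩ := hE z q hd
    exact sideP K₁ f₁ h z m₁ hK₁K hP (hn.mono (min_le_right _ _)) hzK (hzq ▸ hq2)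
      (hzq ▸ hq1'.trans_le (min_le_right _ _))
  · obtain ⟨q, hq1, hq2⟩ := mem_closure_iff.1 c.memQ (ball (J 0) (min (δ / 2) εQ))
      isOpen_ball (mem_ball_self (by positivity))
    have hq1' : dist q (J 0) < min (δ / 2) εQ := hq1
    have hd : dist z q < δ := by
      have a1 := dist_triangle z (J 0) q
      rw [dist_comm (J 0) q] at a1
      have a2 := min_le_left (δ / 2) εQ
      linarith
    obtain ⟨h, hzq, hn⟩ := hE z q hd
    exact sideQ K₁ f₁ h z m₁ hK₁K hQ (hn.mono (min_le_left _ _)) hzK (hzq ▸ hq2)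
      (hzq ▸ hq1'.trans_le (min_le_right _ _))

/-- **Lemma F.** -/
theorem follow (eff : Eff X) {J : ℝ → X} {P Q : Set X} (c : Config J P Q) {K C : Set X}
    {f : X → ℂ} (m : Membrane K C f) (h0 : J 0 ∈ K) {s s' : ℝ} (hs' : 0 < s') (hs's : s' < s)
    (hs : s ≤ 1) (hJC : ∀ t ∈ Icc 0 s, J t ∉ C) {r : ℝ} (hr : r ∈ Ico 0 s')
    {J' : ℝ → X} {P' Q' : Set X} (c' : Config J' P' Q') (h0' : J' 0 = J r) {σ : ℝ}
    (hσ : σ ∈ Icc (0 : ℝ) 1) (hJ' : ∀ t ∈ Icc 0 σ, J' t ∉ C ∪ J '' Icc s' 1) :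
    ∀ t ∈ Icc 0 σ, J' t ∈ J '' Ico 0 s' := by
  have inj : ∀ a ∈ Icc (0 : ℝ) 1, ∀ b ∈ Icc (0 : ℝ) 1, J a = J b → a = b :=
    fun a ha b hb h => c.inj ha hb h
  have hs'1 : s' ≤ 1 := hs's.le.trans hs
  have hJcl : ∀ a b : ℝ, IsClosed (J '' Icc a b) := fun a b =>
    (isCompact_Icc.image c.cont).isClosed
  have hE : IsClosed (C ∪ J '' Icc s' 1) := m.closedC.union (hJcl _ _)
  obtain ⟨d₁, hd₁, h1⟩ := sep (isCompact_Icc.image c.cont : IsCompact (J '' Icc 0 r)) hE (by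
    rw [Set.disjoint_left]
    rintro _ ⟨t, ht, rfl⟩ (h | ⟨u, hu, h⟩)
    · exact hJC t ⟨ht.1, ht.2.trans (hr.2.le.trans hs's.le)⟩ h
    · have := inj u ⟨hs'.le.trans hu.1, hu.2⟩ t ⟨ht.1, ht.2.trans (hr.2.le.trans hs'1)⟩ h
      exact absurd ((this ▸ hu.1 : s' ≤ t).trans ht.2) (not_le.2 hr.2))
  obtain ⟨d₂, hd₂, h2⟩ := sep (isCompact_Icc.image c'.cont : IsCompact (J' '' Icc 0 σ)) hE (by
    rw [Set.disjoint_left]
    rintro _ ⟨t, ht, rfl⟩
    exact hJ' t ht)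
  intro t₀ ht₀
  have hmem : J' t₀ ∈ C ∪ J '' Icc 0 1 := by
    by_contra hno
    obtain ⟨d₃, hd₃, h3⟩ := sep (isCompact_singleton (x := J' t₀)) (m.closedC.union (hJcl 0 1))
      (by rw [Set.disjoint_left]; rintro x hx; rw [mem_singleton_iff] at hx; subst hx; exact hno)
    set η := min (min d₁ d₂) d₃ / 2 with hη
    have hη0 : 0 < η := by positivity
    have e1 : 2 * η ≤ d₁ := by
      have := (min_le_left (min d₁ d₂) d₃).trans (min_le_left _ _)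
      linarith
    have e2 : 2 * η ≤ d₂ := by
      have := (min_le_left (min d₁ d₂) d₃).trans (min_le_right _ _)
      linarith
    have e3 : 2 * η ≤ d₃ := by
      have := min_le_right (min d₁ d₂) d₃
      linarith
    obtain ⟨δ, hδ, hEf⟩ := eff η hη0
    obtain ⟨Φ, C₁, f₂, m₂, ⟨y, hyΦ, hyC, hyd⟩, hC₁, hΦ⟩ :=
      strip eff c m h0 hs' hs's hs hJC (ε := min η δ) (by positivity)
    obtain ⟨g, hg, hgn⟩ := hEf (J 0) y (by
      rw [dist_comm]; exact hyd.trans_le (min_le_right _ _))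
    have k1 := key eff (c.map g) m₂ (by rw [hg]; exact hyΦ) (s := r)
      ⟨hr.1, hr.2.le.trans hs'1⟩ (by
        intro t ht htC
        obtain ⟨x', hx', hd⟩ := hC₁ _ htC
        have a1 := h1 (J t) ⟨t, ht, rfl⟩ x' hx'
        have a2 := hgn (J t)
        have a3 := dist_triangle (J t) (g (J t)) x'
        rw [dist_comm (J t) (g (J t))] at a3
        have a4 := hd.trans_le (min_le_left _ _)
        linarith) r ⟨hr.1, le_refl r⟩
    have a2' : ∀ t ∈ Icc 0 σ, g (J' t) ∉ C₁ := by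
      intro t ht htC
      obtain ⟨x', hx', hd⟩ := hC₁ _ htC
      have a1 := h2 (J' t) ⟨t, ht, rfl⟩ x' hx'
      have a2 := hgn (J' t)
      have a3 := dist_triangle (J' t) (g (J' t)) x'
      rw [dist_comm (J' t) (g (J' t))] at a3
      have a4 := hd.trans_le (min_le_left _ _)
      linarith
    have k2 := key eff (c'.map g) m₂ (by rw [h0']; exact k1.1) (s := σ) hσ a2' t₀ ht₀
    obtain ⟨x', hx', hd⟩ := hΦ _ k2.1 (a2' t₀ ht₀)
    have a1 := h3 (J' t₀) rfl x' hx'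
    have a2 := hgn (J' t₀)
    have a3 := dist_triangle (J' t₀) (g (J' t₀)) x'
    rw [dist_comm (J' t₀) (g (J' t₀))] at a3
    have a4 := hd.trans_le (min_le_left _ _)
    linarith
  have hnot := hJ' t₀ ht₀
  rcases hmem with h | ⟨u, hu, h⟩
  · exact absurd (Or.inl h) hnot
  · refine ⟨u, ⟨hu.1, ?_⟩, h⟩
    by_contra hlt
    exact hnot (Or.inr ⟨u, ⟨not_lt.1 hlt, hu.2⟩, h⟩)

end Pool.Agent.H84.ArcSep
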